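import Mathlib

/-!
# Definitions: 3-graphs without K_4^-, tight components, their shadows and orientations
-/

set_option autoImplicit false

open scoped Classical

namespace Pool.Agent.Helper20.K4m

variable {V : Type}

/-- `E` is the edge set of a 3-graph: all edges have exactly three vertices. -/
def IsThree (E : Finset (Finset V)) : Prop := ∀ e ∈ E, e.card = 3

/-- No four vertices span three or four edges of `E`: there is no copy of `K_4^-`. -/
def NoK4m (E : Finset (Finset V)) : Prop :=
  ∀ Q : Finset V, Q.card = 4 → (E.filter fun e => e ⊆ Q).card ≤ 2

/-- `e` and `f` lie in the same tight component of `E`: there is a sequence of edges from `e` to `f`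
in which consecutive edges share exactly two vertices. -/
def Tight (E : Finset (Finset V)) (e f : Finset V) : Prop :=
  Relation.ReflTransGen (fun a b : Finset V => a ∈ E ∧ b ∈ E ∧ (a ∩ b).card = 2) e f

/-- The pair `uv` lies in the shadow of the tight component of `e`: it is contained in an edge of
this component. -/
def Shad (E : Finset (Finset V)) (e : Finset V) (u v : V) : Prop :=
  u ≠ v ∧ ∃ f ∈ E, Tight E e f ∧ u ∈ f ∧ v ∈ f

/-- The tight component of `e` is orientable: for some orientation of the pairs of vertices every
edge of the component is a cyclic triangle. -/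
def Orient (E : Finset (Finset V)) (e : Finset V) : Prop :=
  ∃ o : V → V → Prop, (∀ u v, o u v → ¬ o v u) ∧
    ∀ f ∈ E, Tight E e f → ∃ a b c : V, f = {a, b, c} ∧ o a b ∧ o b c ∧ o c a

/-- The clique number of the shadow of the tight component of `e`. -/
noncomputable def clq [Fintype V] (E : Finset (Finset V)) (e : Finset V) : ℕ :=
  (Finset.univ.filter fun Q : Finset V => ∀ u ∈ Q, ∀ v ∈ Q, u ≠ v → Shad E e u v).sup Finset.card

/-- The number `ρ(e)`: it is 3 if the tight component of `e` is orientable, and otherwise it is the
clique number of the shadow of this component. -/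
noncomputable def rho [Fintype V] (E : Finset (Finset V)) (e : Finset V) : ℕ :=
  if Orient E e then 3 else clq E e

/-- The local condition: whenever `x, y, u, w` is an induced path in the link graph of a vertex `z`
(`zxy`, `zyu`, `zuw` are edges and `zxu`, `zyw`, `zxw` are not), the triple `xyw` is an edge (and, by
symmetry, so is `wux`). For a 3-graph without `K_4^-` this means that no five vertices induce exactly
the edges `zxy, zyu, zuw`, or exactly these three and `xyw` (the 3-graph `C_5^-`). -/
def Closed (E : Finset (Finset V)) : Prop :=
  ∀ z x y u w : V, ({z, x, y} : Finset V) ∈ E → ({z, y, u} : Finset V) ∈ E →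
    ({z, u, w} : Finset V) ∈ E → ({z, x, u} : Finset V) ∉ E → ({z, y, w} : Finset V) ∉ E →
    ({z, x, w} : Finset V) ∉ E → ({x, y, w} : Finset V) ∈ E

end Pool.Agent.Helper20.K4m
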