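import Pool.Agent.Helper20.K4m.Core
import Pool.Agent.Helper20.K4m.Defs

/-!
# The inequality for all 3-graphs without K_4^-
-/

set_option autoImplicit false

open scoped Classical

namespace Pool.Agent.Helper20.K4m

variable {V : Type}

theorem card3 {u v w : V} (h : ({u, v, w} : Finset V).card = 3) : u ≠ v ∧ u ≠ w ∧ v ≠ w := by
  refine ⟨?_, ?_, ?_⟩
  · rintro rfl
    rw [Finset.insert_eq_of_mem (Finset.mem_insert_self _ _)] at h
    have := Finset.card_le_two (a := u) (b := w)
    omega
  · rintro rfl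
    rw [Finset.insert_eq_of_mem (by simp)] at h
    have := Finset.card_le_two (a := v) (b := u)
    omega
  · rintro rfl
    rw [Finset.pair_eq_singleton] at h
    have := Finset.card_le_two (a := u) (b := v)
    omega

theorem perm6 {u v w a b c : V} (h3 : ({u, v, w} : Finset V).card = 3)
    (h : ({u, v, w} : Finset V) = {a, b, c}) :
    (u = a ∧ v = b ∧ w = c) ∨ (u = a ∧ v = c ∧ w = b) ∨ (u = b ∧ v = a ∧ w = c) ∨
    (u = b ∧ v = c ∧ w = a) ∨ (u = c ∧ v = a ∧ w = b) ∨ (u = c ∧ v = b ∧ w = a) := by
  obtain ⟨h1, h2, h4⟩ := card3 h3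
  have hu : u ∈ ({a, b, c} : Finset V) := h ▸ (by simp)
  have hv : v ∈ ({a, b, c} : Finset V) := h ▸ (by simp)
  have hw : w ∈ ({a, b, c} : Finset V) := h ▸ (by simp)
  simp only [Finset.mem_insert, Finset.mem_singleton] at hu hv hw
  rcases hu with rfl | rfl | rfl <;> rcases hv with rfl | rfl | rfl <;>
    rcases hw with rfl | rfl | rfl <;> simp_all

/-- relation of the component `c` -/
def Tc (c : Finset (Finset V)) (u v w : V) : Prop := ({u, v, w} : Finset V) ∈ c

def Dc (c : Finset (Finset V)) (u v : V) : Prop := u ≠ v ∧ ∃ f ∈ c, u ∈ f ∧ v ∈ f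

theorem cmp_of (E c : Finset (Finset V)) (h3 : IsThree E) (hK : NoK4m E) (hc : c ⊆ E) :
    Cmp (Tc c) (Dc c) where
  sw u v w h := by
    unfold Tc at h ⊢
    rwa [Finset.insert_comm]
  cy u v w h := by
    unfold Tc at h ⊢
    have : ({v, w, u} : Finset V) = {u, v, w} := by
      ext z
      simp only [Finset.mem_insert, Finset.mem_singleton]
      tauto
    rwa [this]
  sy u v h := ⟨h.1.symm, by
    obtain ⟨f, hf, h1, h2⟩ := h.2
    exact ⟨f, hf, h2, h1⟩⟩
  ir v h := h.1 rfl
  sub u v w h := by
    obtain ⟨h1, -, -⟩ := card3 (h3 _ (hc h))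
    exact ⟨h1, _, h, by simp, by simp⟩
  free a b c' d h1 h2 h4 := by
    obtain ⟨n1, n2, n3⟩ := card3 (h3 _ (hc h1))
    obtain ⟨m1, m2, m3⟩ := card3 (h3 _ (hc h2))
    obtain ⟨l1, l2, l3⟩ := card3 (h3 _ (hc h4))
    have hQ : ({a, b, c', d} : Finset V).card = 4 := by
      rw [Finset.card_insert_of_notMem, Finset.card_insert_of_notMem,
        Finset.card_pair l3]
      · simp only [Finset.mem_insert, Finset.mem_singleton, not_or]
        exact ⟨l1, l2⟩
      · simp only [Finset.mem_insert, Finset.mem_singleton, not_or]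
        exact ⟨n1, n2, m2⟩
    have h5 := hK _ hQ
    have h6 : ({{a, b, c'}, {a, b, d}, {b, c', d}} : Finset (Finset V)) ⊆
        E.filter fun e => e ⊆ ({a, b, c', d} : Finset V) := by
      intro e he
      simp only [Finset.mem_insert, Finset.mem_singleton] at he
      rw [Finset.mem_filter]
      rcases he with rfl | rfl | rfl
      · refine ⟨hc h1, fun z hz => ?_⟩
        simp only [Finset.mem_insert, Finset.mem_singleton] at hz ⊢
        tauto
      · refine ⟨hc h2, fun z hz => ?_⟩
        simp only [Finset.mem_insert, Finset.mem_singleton] at hz ⊢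
        tauto
      · refine ⟨hc h4, fun z hz => ?_⟩
        simp only [Finset.mem_insert, Finset.mem_singleton] at hz ⊢
        tauto
    have e1 : ({a, b, c'} : Finset V) ≠ {a, b, d} := fun h => by
      have : c' ∈ ({a, b, d} : Finset V) := h ▸ (by simp)
      simp only [Finset.mem_insert, Finset.mem_singleton] at this
      rcases this with h | h | h
      · exact n2 h.symm
      · exact n3 h.symm
      · exact l3 h
    have e2 : ({a, b, c'} : Finset V) ≠ {b, c', d} := fun h => by
      have : a ∈ ({b, c', d} : Finset V) := h ▸ (by simp)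
      simp only [Finset.mem_insert, Finset.mem_singleton] at this
      rcases this with h | h | h
      · exact n1 h
      · exact n2 h
      · exact m2 h
    have e3 : ({a, b, d} : Finset V) ≠ {b, c', d} := fun h => by
      have : a ∈ ({b, c', d} : Finset V) := h ▸ (by simp)
      simp only [Finset.mem_insert, Finset.mem_singleton] at this
      rcases this with h | h | h
      · exact n1 h
      · exact n2 h
      · exact m2 h
    have h7 : ({{a, b, c'}, {a, b, d}, {b, c', d}} : Finset (Finset V)).card = 3 := by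
      rw [Finset.card_insert_of_notMem, Finset.card_pair e3]
      simp only [Finset.mem_insert, Finset.mem_singleton, not_or]
      exact ⟨e1, e2⟩
    have := Finset.card_le_card h6
    omega

/-- the sum over the orderings of an edge -/
theorem I_edge [Fintype V] (x : V → ℝ) (f : Finset V) (hf : f.card = 3) :
    I x (fun u v w => ind (({u, v, w} : Finset V) = f)) = 6 * ∏ v ∈ f, x v := by
  obtain ⟨a, b, c, hab, hac, hbc, rfl⟩ := Finset.card_eq_three.1 hf
  have hpt : ∀ p q r : V, I x (fun u v w => ind (u = p) * ind (v = q) * ind (w = r)) =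
      x p * x q * x r := by
    intro p q r
    change ∑ u, ∑ v, ∑ w, ind (u = p) * ind (v = q) * ind (w = r) * (x u * x v * x w) = _
    rw [Finset.sum_eq_single p]
    · rw [Finset.sum_eq_single q]
      · rw [Finset.sum_eq_single r]
        · rw [ind_true rfl, ind_true rfl, ind_true rfl]
          ring
        · intro w _ hw
          rw [ind_false hw]
          ring
        · intro h
          exact absurd (Finset.mem_univ _) h
      · intro v _ hv
        refine Finset.sum_eq_zero fun w _ => ?_
        rw [ind_false hv]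
        ring
      · intro h
        exact absurd (Finset.mem_univ _) h
    · intro u _ hu
      refine Finset.sum_eq_zero fun v _ => Finset.sum_eq_zero fun w _ => ?_
      rw [ind_false hu]
      ring
    · intro h
      exact absurd (Finset.mem_univ _) h
  have key : (fun u v w : V => ind (({u, v, w} : Finset V) = {a, b, c})) = fun u v w =>
      ((((ind (u = a) * ind (v = b) * ind (w = c) + ind (u = a) * ind (v = c) * ind (w = b)) +
        ind (u = b) * ind (v = a) * ind (w = c)) + ind (u = b) * ind (v = c) * ind (w = a)) +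
        ind (u = c) * ind (v = a) * ind (w = b)) + ind (u = c) * ind (v = b) * ind (w = a) := by
    funext u v w
    by_cases h : ({u, v, w} : Finset V) = {a, b, c}
    · rw [ind_true h]
      have h3 : ({u, v, w} : Finset V).card = 3 := by rw [h]; exact hf
      have hba := hab.symm
      have hca := hac.symm
      have hcb := hbc.symm
      rcases perm6 h3 h with ⟨rfl, rfl, rfl⟩ | ⟨rfl, rfl, rfl⟩ | ⟨rfl, rfl, rfl⟩ | ⟨rfl, rfl, rfl⟩ |
        ⟨rfl, rfl, rfl⟩ | ⟨rfl, rfl, rfl⟩ <;>
        simp [ind, hab, hac, hbc, hba, hca, hcb]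
    · rw [ind_false h]
      have hn : ∀ p q r : V, ({p, q, r} : Finset V) = {a, b, c} →
          ind (u = p) * ind (v = q) * ind (w = r) = 0 := by
        intro p q r hpq
        rcases ind_cases (u = p) with ⟨h1, -⟩ | ⟨-, h1⟩
        · rcases ind_cases (v = q) with ⟨h2, -⟩ | ⟨-, h2⟩
          · rcases ind_cases (w = r) with ⟨h3, -⟩ | ⟨-, h3⟩
            · exact absurd (by rw [h1, h2, h3, hpq]) h
            · rw [h3, mul_zero]
          · rw [h2, mul_zero, zero_mul]
        · rw [h1, zero_mul, zero_mul]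
      rw [hn a b c rfl, hn a c b (by ext; simp; tauto), hn b a c (by ext; simp; tauto),
        hn b c a (by ext; simp; tauto), hn c a b (by ext; simp; tauto),
        hn c b a (by ext; simp; tauto)]
      norm_num
  rw [key, I_add, I_add, I_add, I_add, I_add, hpt, hpt, hpt, hpt, hpt, hpt,
    Finset.prod_insert, Finset.prod_pair hbc]
  · ring
  · simp only [Finset.mem_insert, Finset.mem_singleton, not_or]
    exact ⟨hab, hac⟩

theorem Lt_eq [Fintype V] (x : V → ℝ) (c : Finset (Finset V)) (h3 : ∀ f ∈ c, f.card = 3) :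
    Lt x (Tc c) = 6 * ∑ f ∈ c, ∏ v ∈ f, x v := by
  have h1 : (fun u v w : V => ind (Tc c u v w)) = fun u v w =>
      ∑ f ∈ c, ind (({u, v, w} : Finset V) = f) := by
    funext u v w
    by_cases h : ({u, v, w} : Finset V) ∈ c
    · rw [ind_true (show Tc c u v w from h), Finset.sum_eq_single_of_mem _ h, ind_true rfl]
      intro f _ hf
      exact ind_false fun hh => hf hh.symm
    · rw [ind_false (show ¬ Tc c u v w from h), Finset.sum_eq_zero]
      intro f hf
      exact ind_false fun hh => h (hh ▸ hf)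
  unfold Lt
  rw [h1, I_sum, Finset.mul_sum]
  exact Finset.sum_congr rfl fun f hf => I_edge x f (h3 f hf)

theorem tight_symm {E : Finset (Finset V)} {e f : Finset V} (h : Tight E e f) : Tight E f e := by
  unfold Tight at h ⊢
  induction h with
  | refl => exact Relation.ReflTransGen.refl
  | tail _ hab ih =>
    exact (Relation.ReflTransGen.single
      ⟨hab.2.1, hab.1, by rw [Finset.inter_comm]; exact hab.2.2⟩).trans ih

/-- the tight component of `e` -/
noncomputable def comp (E : Finset (Finset V)) (e : Finset V) : Finset (Finset V) :=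
  E.filter (Tight E e)

theorem comp_eq {E : Finset (Finset V)} {e f : Finset V} (h : Tight E e f) :
    comp E e = comp E f := by
  unfold comp
  ext g
  rw [Finset.mem_filter, Finset.mem_filter]
  exact ⟨fun hg => ⟨hg.1, (tight_symm h).trans hg.2⟩, fun hg => ⟨hg.1, h.trans hg.2⟩⟩

theorem shad_iff (E : Finset (Finset V)) (e : Finset V) (u v : V) :
    Shad E e u v ↔ Dc (comp E e) u v := by
  unfold Shad Dc comp
  constructor
  · rintro ⟨h1, f, hf, hT, h2, h3⟩
    exact ⟨h1, f, Finset.mem_filter.2 ⟨hf, hT⟩, h2, h3⟩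
  · rintro ⟨h1, f, hf, h2, h3⟩
    rw [Finset.mem_filter] at hf
    exact ⟨h1, f, hf.1, hf.2, h2, h3⟩

theorem rho_eq [Fintype V] {E : Finset (Finset V)} {e f : Finset V} (h : Tight E e f) :
    rho E e = rho E f := by
  have h1 : ∀ g, Tight E e g ↔ Tight E f g := fun g =>
    ⟨fun hg => (tight_symm h).trans hg, fun hg => h.trans hg⟩
  have h2 : Orient E e ↔ Orient E f := by
    unfold Orient
    simp only [h1]
  have h3 : clq E e = clq E f := by
    unfold clq
    refine congrArg (fun s => Finset.sup s Finset.card) ?_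
    ext Q
    rw [Finset.mem_filter, Finset.mem_filter]
    simp only [Shad, h1]
  unfold rho
  simp only [h2, h3]

/-- one component -/
theorem one_comp [Fintype V] (E : Finset (Finset V)) (h3 : IsThree E) (hK : NoK4m E)
    (x : V → ℝ) (hx : ∀ v, 0 ≤ x v) (e : Finset V) (he : e ∈ E) :
    18 * ((1 + 1 / (rho E e : ℝ)) * ∑ f ∈ comp E e, ∏ v ∈ f, x v) ≤
      3 * Sc x (Dc (comp E e)) - 2 * Mt x (Dc (comp E e)) := by
  have hsub : comp E e ⊆ E := Finset.filter_subset _ _
  have hC := cmp_of E (comp E e) h3 hK hsub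
  have hL := Lt_eq x (comp E e) fun f hf => h3 f (hsub hf)
  by_cases ho : Orient E e
  · have hr : rho E e = 3 := if_pos ho
    obtain ⟨o, ho1, ho2⟩ := ho
    have h1 := hC.ori x hx o ho1 (by
      rintro u v ⟨huv, f, hf, hu, hv⟩
      obtain ⟨a, b, c, rfl, o1, o2, o3⟩ := ho2 f (hsub hf) (Finset.mem_filter.1 hf).2
      simp only [Finset.mem_insert, Finset.mem_singleton] at hu hv
      rcases hu with rfl | rfl | rfl <;> rcases hv with rfl | rfl | rfl
      · exact absurd rfl huv
      · exact Or.inl o1
      · exact Or.inr o3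
      · exact Or.inr o1
      · exact absurd rfl huv
      · exact Or.inl o2
      · exact Or.inl o3
      · exact Or.inr o2
      · exact absurd rfl huv) (by
      intro u v w hT
      have hT' : ({u, v, w} : Finset V) ∈ comp E e := hT
      obtain ⟨a, b, c, hf, o1, o2, o3⟩ := ho2 _ (hsub hT') (Finset.mem_filter.1 hT').2
      rcases perm6 (h3 _ (hsub hT')) hf with ⟨rfl, rfl, rfl⟩ | ⟨rfl, rfl, rfl⟩ | ⟨rfl, rfl, rfl⟩ |
        ⟨rfl, rfl, rfl⟩ | ⟨rfl, rfl, rfl⟩ | ⟨rfl, rfl, rfl⟩
      · exact Or.inl ⟨o1, o2, o3⟩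
      · exact Or.inr ⟨o3, o2, o1⟩
      · exact Or.inr ⟨o1, o3, o2⟩
      · exact Or.inl ⟨o2, o3, o1⟩
      · exact Or.inl ⟨o3, o1, o2⟩
      · exact Or.inr ⟨o2, o1, o3⟩)
    rw [hL] at h1
    rw [hr]
    push_cast
    linarith
  · have hr : rho E e = clq E e := if_neg ho
    rw [hr]
    have hclq : ∀ Q : Finset V, (∀ u ∈ Q, ∀ v ∈ Q, u ≠ v → Dc (comp E e) u v) →
        Q.card ≤ clq E e := by
      intro Q hQ
      unfold clq
      refine Finset.le_sup (f := Finset.card) ?_
      rw [Finset.mem_filter]
      exact ⟨Finset.mem_univ _, fun u hu v hv huv => (shad_iff E e u v).2 (hQ u hu v hv huv)⟩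
    have h2 : 2 ≤ clq E e := by
      have h4 := hclq e (fun u hu v hv huv => ⟨huv, e,
        Finset.mem_filter.2 ⟨he, Relation.ReflTransGen.refl⟩, hu, hv⟩)
      rw [h3 e he] at h4
      omega
    have h1 := hC.clq x hx (clq E e) h2 hclq
    rw [hL] at h1
    linarith

/-- The inequality for all 3-graphs without `K_4^-`. -/
theorem main [Fintype V] (E : Finset (Finset V)) (h3 : IsThree E) (hK : NoK4m E)
    (x : V → ℝ) (hx : ∀ v, 0 ≤ x v) :
    18 * ∑ e ∈ E, (1 + 1 / (rho E e : ℝ)) * ∏ v ∈ e, x v ≤ (∑ v, x v) ^ 3 - ∑ v, x v ^ 3 := by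
  set Cs := E.image (comp E) with hCs
  have hmem : ∀ c ∈ Cs, ∃ e ∈ E, comp E e = c := fun c hc => by
    obtain ⟨e, he, rfl⟩ := Finset.mem_image.1 hc
    exact ⟨e, he, rfl⟩
  have hsubc : ∀ c ∈ Cs, c ⊆ E := fun c hc => by
    obtain ⟨e, he, rfl⟩ := hmem c hc
    exact Finset.filter_subset _ _
  have h1 := comp_sum x hx Cs Dc (fun c hc => (cmp_of E c h3 hK (hsubc c hc)).sy)
    (fun c hc => (cmp_of E c h3 hK (hsubc c hc)).ir) (by
    rintro c hc c' hc' u v ⟨huv, f, hf, hu, hv⟩ ⟨-, f', hf', hu', hv'⟩
    obtain ⟨e, he, rfl⟩ := hmem c hc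
    obtain ⟨e', he', rfl⟩ := hmem c' hc'
    have hfE := (Finset.mem_filter.1 hf).1
    have hfE' := (Finset.mem_filter.1 hf').1
    have h4 : Tight E f f' := by
      by_cases hff : f = f'
      · rw [hff]
        exact Relation.ReflTransGen.refl
      · refine Relation.ReflTransGen.single ⟨hfE, hfE', ?_⟩
        have h5 : 2 ≤ (f ∩ f').card := by
          rw [← Finset.card_pair huv]
          refine Finset.card_le_card fun z hz => ?_
          simp only [Finset.mem_insert, Finset.mem_singleton] at hz
          rw [Finset.mem_inter]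
          rcases hz with rfl | rfl
          · exact ⟨hu, hu'⟩
          · exact ⟨hv, hv'⟩
        have h6 : (f ∩ f').card ≤ 3 := by
          rw [← h3 f hfE]
          exact Finset.card_le_card Finset.inter_subset_left
        have h7 : (f ∩ f').card ≠ 3 := by
          intro h8
          have h9 : f ∩ f' = f := Finset.eq_of_subset_of_card_le Finset.inter_subset_left
            (by rw [h8, h3 f hfE])
          have h10 : f ∩ f' = f' := Finset.eq_of_subset_of_card_le Finset.inter_subset_right
            (by rw [h8, h3 f' hfE'])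
          exact hff (h9.symm.trans h10)
        omega
    have h5 := (Finset.mem_filter.1 hf).2
    have h6 := (Finset.mem_filter.1 hf').2
    exact comp_eq (h5.trans (h4.trans (tight_symm h6))))
  have h2 : ∑ e ∈ E, (1 + 1 / (rho E e : ℝ)) * ∏ v ∈ e, x v =
      ∑ c ∈ Cs, ∑ e ∈ E.filter (fun e => comp E e = c), (1 + 1 / (rho E e : ℝ)) * ∏ v ∈ e, x v :=
    (Finset.sum_fiberwise_of_maps_to (fun e he => Finset.mem_image_of_mem _ he) _).symm
  rw [h2, Finset.mul_sum]
  refine le_trans (Finset.sum_le_sum fun c hc => ?_) h1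
  obtain ⟨e, he, rfl⟩ := hmem c hc
  have h5 : E.filter (fun f => comp E f = comp E e) = comp E e := by
    ext f
    rw [Finset.mem_filter]
    constructor
    · rintro ⟨hf, hfe⟩
      rw [← hfe]
      exact Finset.mem_filter.2 ⟨hf, Relation.ReflTransGen.refl⟩
    · intro hf
      have hf' := Finset.mem_filter.1 hf
      exact ⟨hf'.1, (comp_eq hf'.2).symm⟩
  rw [h5]
  have h6 : ∑ f ∈ comp E e, (1 + 1 / (rho E f : ℝ)) * ∏ v ∈ f, x v =
      (1 + 1 / (rho E e : ℝ)) * ∑ f ∈ comp E e, ∏ v ∈ f, x v := by
    rw [Finset.mul_sum]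
    refine Finset.sum_congr rfl fun f hf => ?_
    rw [rho_eq (Finset.mem_filter.1 hf).2]
  rw [h6]
  exact one_comp E h3 hK x hx e he

end Pool.Agent.Helper20.K4m
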