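import Pool.Agent.Helper20.K4m.ZeroTwo
import Pool.Agent.Helper20.K4m.Main

/-!
# The local condition
-/

set_option autoImplicit false

open scoped Classical

namespace Pool.Agent.Helper20.K4m

variable {V : Type}

/-- `w` is in `f` or `f` and `w` span two edges -/
def InM (E : Finset (Finset V)) (f : Finset V) (w : V) : Prop :=
  w ∈ f ∨ ∃ g ∈ E, w ∈ g ∧ (f ∩ g).card = 2

theorem perm_eq (a b c : V) : ({a, b, c} : Finset V) = {b, a, c} ∧
    ({a, b, c} : Finset V) = {b, c, a} ∧ ({a, b, c} : Finset V) = {a, c, b} := by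
  refine ⟨?_, ?_, ?_⟩ <;> (ext z; simp only [Finset.mem_insert, Finset.mem_singleton]; tauto)

/-- two edges sharing two vertices -/
theorem two_share (E : Finset (Finset V)) (h3 : IsThree E) {f g : Finset V} (hf : f ∈ E)
    (hg : g ∈ E) (hfg : (f ∩ g).card = 2) : ∃ a b c d, f = {a, b, c} ∧ g = {a, b, d} ∧ a ≠ b ∧
      a ≠ c ∧ b ≠ c ∧ a ≠ d ∧ b ≠ d ∧ c ≠ d := by
  obtain ⟨a, b, hab, hI⟩ := Finset.card_eq_two.1 hfg
  have ha : a ∈ f ∩ g := by rw [hI]; simp
  have hb : b ∈ f ∩ g := by rw [hI]; simp
  rw [Finset.mem_inter] at ha hb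
  have key : ∀ k : Finset V, k ∈ E → a ∈ k → b ∈ k → ∃ c, c ≠ a ∧ c ≠ b ∧ k = {a, b, c} := by
    intro k hk hak hbk
    have h1 : ((k.erase a).erase b).card = 1 := by
      rw [Finset.card_erase_of_mem (Finset.mem_erase.2 ⟨hab.symm, hbk⟩),
        Finset.card_erase_of_mem hak, h3 k hk]
    obtain ⟨c, hc⟩ := Finset.card_eq_one.1 h1
    have hcm : c ∈ (k.erase a).erase b := by rw [hc]; simp
    simp only [Finset.mem_erase] at hcm
    refine ⟨c, hcm.2.1, hcm.1, ?_⟩
    ext z
    simp only [Finset.mem_insert, Finset.mem_singleton]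
    constructor
    · intro hz
      by_cases hza : z = a
      · exact Or.inl hza
      by_cases hzb : z = b
      · exact Or.inr (Or.inl hzb)
      · have : z ∈ (k.erase a).erase b := by
          simp only [Finset.mem_erase]
          exact ⟨hzb, hza, hz⟩
        rw [hc, Finset.mem_singleton] at this
        exact Or.inr (Or.inr this)
    · rintro (rfl | rfl | rfl)
      · exact hak
      · exact hbk
      · exact hcm.2.2
  obtain ⟨c, hca, hcb, hfe⟩ := key f hf ha.1 hb.1
  obtain ⟨d, hda, hdb, hge⟩ := key g hg ha.2 hb.2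
  refine ⟨a, b, c, d, hfe, hge, hab, hca.symm, hcb.symm, hda.symm, hdb.symm, ?_⟩
  rintro rfl
  rw [hfe, hge, Finset.inter_self, ← hfe, h3 f hf] at hfg
  omega

theorem inM_iff (E : Finset (Finset V)) (h3 : IsThree E) {a b c w : V}
    (hf : ({a, b, c} : Finset V) ∈ E) (hw : w ∉ ({a, b, c} : Finset V)) :
    InM E {a, b, c} w ↔ ({a, b, w} : Finset V) ∈ E ∨ ({a, c, w} : Finset V) ∈ E ∨
      ({b, c, w} : Finset V) ∈ E := by
  obtain ⟨n1, n2, n3⟩ := card3 (h3 _ hf)
  simp only [Finset.mem_insert, Finset.mem_singleton, not_or] at hw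
  obtain ⟨w1, w2, w3⟩ := hw
  constructor
  · rintro (h | ⟨g, hg, hwg, hcard⟩)
    · simp only [Finset.mem_insert, Finset.mem_singleton] at h
      tauto
    · obtain ⟨p, q, r, d, he, hge, hpq, hpr, hqr, hpd, hqd, hrd⟩ := two_share E h3 hf hg hcard
      have hwd : w = d := by
        rw [hge] at hwg
        simp only [Finset.mem_insert, Finset.mem_singleton] at hwg
        have hp : p ∈ ({a, b, c} : Finset V) := by rw [he]; simp
        have hq : q ∈ ({a, b, c} : Finset V) := by rw [he]; simp
        simp only [Finset.mem_insert, Finset.mem_singleton] at hp hq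
        rcases hwg with e | e | e
        · rw [← e] at hp
          tauto
        · rw [← e] at hq
          tauto
        · exact e
      subst hwd
      rw [hge] at hg
      rcases perm6 (h3 _ hf) he with ⟨rfl, rfl, rfl⟩ | ⟨rfl, rfl, rfl⟩ | ⟨rfl, rfl, rfl⟩ |
        ⟨rfl, rfl, rfl⟩ | ⟨rfl, rfl, rfl⟩ | ⟨rfl, rfl, rfl⟩
      · exact Or.inl hg
      · exact Or.inr (Or.inl hg)
      · exact Or.inl ((perm_eq _ _ _).1 ▸ hg)
      · exact Or.inr (Or.inl ((perm_eq _ _ _).1 ▸ hg))
      · exact Or.inr (Or.inr hg)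
      · exact Or.inr (Or.inr ((perm_eq _ _ _).1 ▸ hg))
  · intro h
    right
    have card2 : ∀ p q r : V, p ≠ q → p ≠ r → q ≠ r → w ≠ p → w ≠ q → w ≠ r →
        (({p, q, r} : Finset V) ∩ {p, q, w}).card = 2 := by
      intro p q r h1 h2 h3 h4 h5 h6
      have : (({p, q, r} : Finset V) ∩ {p, q, w}) = {p, q} := by
        ext z
        simp only [Finset.mem_inter, Finset.mem_insert, Finset.mem_singleton]
        constructor
        · rintro ⟨e1 | e1 | e1, e2 | e2 | e2⟩
          · exact Or.inl e1
          · exact Or.inl e1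
          · exact Or.inl e1
          · exact Or.inr e1
          · exact Or.inr e1
          · exact Or.inr e1
          · exact Or.inl e2
          · exact Or.inr e2
          · exact absurd (e2.symm.trans e1) h6
        · rintro (e | e)
          · exact ⟨Or.inl e, Or.inl e⟩
          · exact ⟨Or.inr (Or.inl e), Or.inr (Or.inl e)⟩
      rw [this, Finset.card_pair h1]
    rcases h with h | h | h
    · exact ⟨_, h, by simp, card2 a b c n1 n2 n3 w1 w2 w3⟩
    · refine ⟨_, h, by simp, ?_⟩
      rw [(perm_eq a b c).2.2]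
      exact card2 a c b n2 n1 n3.symm w1 w3 w2
    · refine ⟨_, h, by simp, ?_⟩
      rw [(perm_eq a b c).2.1]
      exact card2 b c a n3 n1.symm n2.symm w2 w3 w1

/-- the set `InM` is the same for two edges sharing two vertices -/
theorem inM_step (E : Finset (Finset V)) (h3 : IsThree E) (hK : NoK4m E) (hcl : Closed E)
    {f g : Finset V} (hf : f ∈ E) (hg : g ∈ E) (hfg : (f ∩ g).card = 2) {w : V}
    (hw : InM E f w) : InM E g w := by
  have hC := cmp_of E E h3 hK (Finset.Subset.refl E)
  obtain ⟨a, b, c, d, rfl, rfl, hab, hac, hbc, had, hbd, hcd⟩ := two_share E h3 hf hg hfg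
  by_cases hwg : w ∈ ({a, b, d} : Finset V)
  · exact Or.inl hwg
  by_cases hwf : w ∈ ({a, b, c} : Finset V)
  · right
    exact ⟨_, hf, hwf, by rw [Finset.inter_comm]; exact hfg⟩
  rw [inM_iff E h3 hf hwf] at hw
  rw [inM_iff E h3 hg hwg]
  -- paths `d, b, c, w` in the link of `a`
  have main : ∀ a b : V, a ≠ b → ({a, b, c} : Finset V) ∈ E → ({a, b, d} : Finset V) ∈ E →
      ({a, c, w} : Finset V) ∈ E → ({a, b, w} : Finset V) ∈ E ∨ ({a, d, w} : Finset V) ∈ E ∨
        ({b, d, w} : Finset V) ∈ E := by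
    intro a b hab hf hg h
    by_contra hcon
    push Not at hcon
    obtain ⟨m1, m2, m3⟩ := hcon
    apply m3
    have hadc : ({a, d, c} : Finset V) ∉ E := fun e => by
      -- abc, abd, adc
      have e1 : Tc E b a c := by
        unfold Tc
        rw [← (perm_eq a b c).1]
        exact hf
      have e2 : Tc E b a d := by
        unfold Tc
        rw [← (perm_eq a b d).1]
        exact hg
      have e3 : Tc E a c d := by
        unfold Tc
        rw [(perm_eq a c d).2.2]
        exact e
      exact hC.free b a c d e1 e2 e3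
    have := hcl a d b c w (by rw [← (perm_eq a b d).2.2]; exact hg) hf h hadc m1 m2
    rw [(perm_eq b d w).1]
    exact this
  rcases hw with h | h | h
  · exact Or.inl h
  · exact main a b hab hf hg h
  · rcases main b a hab.symm (by rw [← (perm_eq a b c).1]; exact hf)
      (by rw [← (perm_eq a b d).1]; exact hg) h with h' | h' | h'
    · exact Or.inl (by rw [(perm_eq a b w).1]; exact h')
    · exact Or.inr (Or.inr h')
    · exact Or.inr (Or.inl h')

theorem inM_tight (E : Finset (Finset V)) (h3 : IsThree E) (hK : NoK4m E) (hcl : Closed E)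
    {e f : Finset V} (h : Tight E e f) (w : V) : InM E e w ↔ InM E f w := by
  unfold Tight at h
  induction h with
  | refl => exact Iff.rfl
  | tail _ hab ih =>
    rw [ih]
    exact ⟨fun h => inM_step E h3 hK hcl hab.1 hab.2.1 hab.2.2 h,
      fun h => inM_step E h3 hK hcl hab.2.1 hab.1 (by rw [Finset.inter_comm]; exact hab.2.2) h⟩

theorem zt_of (E : Finset (Finset V)) (h3 : IsThree E) (hK : NoK4m E) (hcl : Closed E)
    (e : Finset V) : ZT (Tc (comp E e)) (InM E e) := by
  have hsub : comp E e ⊆ E := Finset.filter_subset _ _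
  have hC := cmp_of E (comp E e) h3 hK hsub
  refine ⟨fun a b c h => card3 (h3 _ (hsub h)), hC.sw, hC.cy, hC.free, ?_, ?_⟩
  · intro a b c h
    have h1 : Tight E e {a, b, c} := (Finset.mem_filter.1 h).2
    rw [inM_tight E h3 hK hcl h1]
    exact Or.inl (by simp)
  · intro a b c w h hw n1 n2 n3
    have hE : ({a, b, c} : Finset V) ∈ E := hsub h
    have h1 : Tight E e {a, b, c} := (Finset.mem_filter.1 h).2
    have hw' := (inM_tight E h3 hK hcl h1 w).1 hw
    have hnot : w ∉ ({a, b, c} : Finset V) := by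
      simp only [Finset.mem_insert, Finset.mem_singleton, not_or]
      exact ⟨n1, n2, n3⟩
    have hstep : ∀ g ∈ E, ((({a, b, c} : Finset V)) ∩ g).card = 2 → g ∈ comp E e := fun g hg hc =>
      Finset.mem_filter.2 ⟨hg, h1.tail ⟨hE, hg, hc⟩⟩
    obtain ⟨k1, k2, k3⟩ := card3 (h3 _ hE)
    have card2 : ∀ p q r : V, p ≠ q → p ≠ r → q ≠ r → w ≠ p → w ≠ q → w ≠ r →
        (({p, q, r} : Finset V) ∩ {p, q, w}).card = 2 := by
      intro p q r h1 h2 h3 h4 h5 h6
      have : (({p, q, r} : Finset V) ∩ {p, q, w}) = {p, q} := by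
        ext z
        simp only [Finset.mem_inter, Finset.mem_insert, Finset.mem_singleton]
        constructor
        · rintro ⟨e1 | e1 | e1, e2 | e2 | e2⟩
          · exact Or.inl e1
          · exact Or.inl e1
          · exact Or.inl e1
          · exact Or.inr e1
          · exact Or.inr e1
          · exact Or.inr e1
          · exact Or.inl e2
          · exact Or.inr e2
          · exact absurd (e2.symm.trans e1) h6
        · rintro (e | e)
          · exact ⟨Or.inl e, Or.inl e⟩
          · exact ⟨Or.inr (Or.inl e), Or.inr (Or.inl e)⟩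
      rw [this, Finset.card_pair h1]
    rcases (inM_iff E h3 hE hnot).1 hw' with h5 | h5 | h5
    · exact Or.inl (hstep _ h5 (card2 a b c k1 k2 k3 n1 n2 n3))
    · refine Or.inr (Or.inl (hstep _ h5 ?_))
      rw [(perm_eq a b c).2.2]
      exact card2 a c b k2 k1 k3.symm n1 n3 n2
    · refine Or.inr (Or.inr (hstep _ h5 ?_))
      rw [(perm_eq a b c).2.1]
      exact card2 b c a k3 k1.symm k2.symm n2 n3 n1

/-- Closed 3-graphs: all tight components are orientable or have a shadow without `K_7`. -/
theorem closed_good [Fintype V] (E : Finset (Finset V)) (h3 : IsThree E) (hK : NoK4m E)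
    (hcl : Closed E) (e : Finset V) (he : e ∈ E) : Orient E e ∨ clq E e ≤ 6 := by
  have hsub : comp E e ⊆ E := Finset.filter_subset _ _
  rcases (zt_of E h3 hK hcl e).dich with ⟨o, ho1, ho2⟩ | hQ
  · left
    refine ⟨o, ho1, fun f hf hT => ?_⟩
    obtain ⟨a, b, c, hab, hac, hbc, rfl⟩ := Finset.card_eq_three.1 (h3 f hf)
    rcases ho2 a b c (Finset.mem_filter.2 ⟨hf, hT⟩) with ⟨o1, o2, o3⟩ | ⟨o1, o2, o3⟩
    · exact ⟨a, b, c, rfl, o1, o2, o3⟩
    · exact ⟨b, a, c, (perm_eq a b c).1, o1, o3, o2⟩
  · right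
    unfold clq
    refine Finset.sup_le fun Q hQm => ?_
    rw [Finset.mem_filter] at hQm
    refine hQ Q fun x hx y hy hxy => ?_
    obtain ⟨-, f, hf, hT, hxf, hyf⟩ := hQm.2 x hx y hy hxy
    obtain ⟨z, hz⟩ : ∃ z, f = {x, y, z} := by
      have h1 : ((f.erase x).erase y).card = 1 := by
        rw [Finset.card_erase_of_mem (Finset.mem_erase.2 ⟨hxy.symm, hyf⟩),
          Finset.card_erase_of_mem hxf, h3 f hf]
      obtain ⟨z, hz⟩ := Finset.card_eq_one.1 h1
      have hzm : z ∈ (f.erase x).erase y := by rw [hz]; simp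
      simp only [Finset.mem_erase] at hzm
      refine ⟨z, ?_⟩
      ext t
      simp only [Finset.mem_insert, Finset.mem_singleton]
      constructor
      · intro ht
        by_cases h2 : t = x
        · exact Or.inl h2
        by_cases h4 : t = y
        · exact Or.inr (Or.inl h4)
        · have : t ∈ (f.erase x).erase y := by
            simp only [Finset.mem_erase]
            exact ⟨h4, h2, ht⟩
          rw [hz, Finset.mem_singleton] at this
          exact Or.inr (Or.inr this)
      · rintro (rfl | rfl | rfl)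
        · exact hxf
        · exact hyf
        · exact hzm.2.2
    refine ⟨z, ?_⟩
    change ({x, y, z} : Finset V) ∈ comp E e
    rw [← hz]
    exact Finset.mem_filter.2 ⟨hf, hT⟩

end Pool.Agent.Helper20.K4m
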