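import Mathlib

/-!
# Weighted inequalities for a 3-graph without K_4^- and its shadow

All sums are over ordered triples of vertices.
-/

set_option autoImplicit false

open scoped Classical

namespace Pool.Agent.Helper20.K4m

variable {V : Type} [Fintype V]

/-- indicator -/
noncomputable def ind (p : Prop) : ℝ := if p then 1 else 0

theorem ind_nonneg (p : Prop) : 0 ≤ ind p := by unfold ind; split_ifs <;> norm_num

theorem ind_le_one (p : Prop) : ind p ≤ 1 := by unfold ind; split_ifs <;> norm_num

theorem ind_true {p : Prop} (h : p) : ind p = 1 := if_pos h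

theorem ind_false {p : Prop} (h : ¬ p) : ind p = 0 := if_neg h

theorem ind_cases (p : Prop) : (p ∧ ind p = 1) ∨ (¬ p ∧ ind p = 0) := by
  by_cases h : p
  · exact Or.inl ⟨h, ind_true h⟩
  · exact Or.inr ⟨h, ind_false h⟩

/-- the sum over ordered triples -/
noncomputable def I (x : V → ℝ) (F : V → V → V → ℝ) : ℝ :=
  ∑ u, ∑ v, ∑ w, F u v w * (x u * x v * x w)

section

variable (x : V → ℝ)

theorem I_mono (hx : ∀ v, 0 ≤ x v) {F G : V → V → V → ℝ} (h : ∀ u v w, F u v w ≤ G u v w) :
    I x F ≤ I x G := by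
  unfold I
  refine Finset.sum_le_sum fun u _ => Finset.sum_le_sum fun v _ => Finset.sum_le_sum fun w _ => ?_
  exact mul_le_mul_of_nonneg_right (h u v w) (mul_nonneg (mul_nonneg (hx u) (hx v)) (hx w))

theorem I_add (F G : V → V → V → ℝ) : I x (fun u v w => F u v w + G u v w) = I x F + I x G := by
  unfold I
  simp only [add_mul, Finset.sum_add_distrib]

theorem I_sub (F G : V → V → V → ℝ) : I x (fun u v w => F u v w - G u v w) = I x F - I x G := by
  unfold I
  simp only [sub_mul, Finset.sum_sub_distrib]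

theorem I_smul (c : ℝ) (F : V → V → V → ℝ) : I x (fun u v w => c * F u v w) = c * I x F := by
  unfold I
  simp only [Finset.mul_sum, mul_assoc]

theorem I_zero : I x (fun _ _ _ => 0) = 0 := by
  unfold I
  simp

theorem I_sum {ι : Type*} (s : Finset ι) (F : ι → V → V → V → ℝ) :
    I x (fun u v w => ∑ c ∈ s, F c u v w) = ∑ c ∈ s, I x (F c) := by
  induction s using Finset.induction_on with
  | empty =>
    simp only [Finset.sum_empty]
    exact I_zero x
  | insert a s ha ih =>
    simp only [Finset.sum_insert ha]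
    rw [I_add x (F a) (fun u v w => ∑ c ∈ s, F c u v w), ih]

theorem I_swap12 (F : V → V → V → ℝ) : I x (fun u v w => F v u w) = I x F := by
  unfold I
  rw [Finset.sum_comm]
  refine Finset.sum_congr rfl fun u _ => Finset.sum_congr rfl fun v _ =>
    Finset.sum_congr rfl fun w _ => ?_
  ring

theorem I_swap23 (F : V → V → V → ℝ) : I x (fun u v w => F u w v) = I x F := by
  unfold I
  refine Finset.sum_congr rfl fun u _ => ?_
  rw [Finset.sum_comm]
  refine Finset.sum_congr rfl fun v _ => Finset.sum_congr rfl fun w _ => ?_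
  ring

/-- cyclic shift -/
theorem I_cyc (F : V → V → V → ℝ) : I x (fun u v w => F v w u) = I x F := by
  rw [← I_swap23 x F]
  exact I_swap12 x (fun u v w => F u w v)

theorem I_one : I x (fun _ _ _ => 1) = (∑ v, x v) ^ 3 := by
  unfold I
  have h : ∀ u v : V, ∑ w, (1 : ℝ) * (x u * x v * x w) = x u * (x v * ∑ w, x w) := fun u v => by
    rw [Finset.mul_sum, Finset.mul_sum]
    exact Finset.sum_congr rfl fun w _ => by ring
  simp only [h]
  simp only [← Finset.mul_sum, ← Finset.sum_mul]
  ring

theorem I_diag : I x (fun u v w => ind (u = v ∧ u = w)) = ∑ v, x v ^ 3 := by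
  unfold I
  refine Finset.sum_congr rfl fun u _ => ?_
  rw [Finset.sum_eq_single u, Finset.sum_eq_single u]
  · change ind (u = u ∧ u = u) * (x u * x u * x u) = x u ^ 3
    rw [ind_true ⟨rfl, rfl⟩]
    ring
  · intro w _ hw
    change ind (u = u ∧ u = w) * (x u * x u * x w) = 0
    rw [ind_false (fun h => hw h.2.symm), zero_mul]
  · intro h
    exact absurd (Finset.mem_univ _) h
  · intro v _ hv
    refine Finset.sum_eq_zero fun w _ => ?_
    change ind (u = v ∧ u = w) * (x u * x v * x w) = 0
    rw [ind_false (fun h => hv h.1.symm), zero_mul]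
  · intro h
    exact absurd (Finset.mem_univ _) h

end

/-! ## The weighted Turan theorem -/

/-- the weight of the ordered adjacent pairs -/
noncomputable def Ed (y : V → ℝ) (D : V → V → Prop) : ℝ := ∑ u, ∑ v, ind (D u v) * (y u * y v)

/-- the degree -/
noncomputable def dg (y : V → ℝ) (D : V → V → Prop) (u : V) : ℝ := ∑ v, ind (D u v) * y v

/-- ordered cherries -/
noncomputable def Sc (y : V → ℝ) (D : V → V → Prop) : ℝ :=
  I y (fun u v w => ind (D u v) * ind (D u w))

/-- ordered triangles -/
noncomputable def Mt (y : V → ℝ) (D : V → V → Prop) : ℝ :=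
  I y (fun u v w => ind (D u v) * ind (D u w) * ind (D v w))

theorem Sc_eq (y : V → ℝ) (D : V → V → Prop) : Sc y D = ∑ u, y u * dg y D u ^ 2 := by
  unfold Sc I dg
  refine Finset.sum_congr rfl fun u _ => ?_
  rw [sq, Finset.sum_mul_sum, Finset.mul_sum]
  refine Finset.sum_congr rfl fun v _ => ?_
  rw [Finset.mul_sum]
  exact Finset.sum_congr rfl fun w _ => by ring

theorem Ed_eq (y : V → ℝ) (D : V → V → Prop) : Ed y D = ∑ u, y u * dg y D u := by
  unfold Ed dg
  refine Finset.sum_congr rfl fun u _ => ?_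
  rw [Finset.mul_sum]
  exact Finset.sum_congr rfl fun v _ => by ring

theorem Mt_eq (y : V → ℝ) (D : V → V → Prop) : Mt y D = ∑ u, y u *
    Ed (fun v => ind (D u v) * y v) D := by
  unfold Mt I Ed
  refine Finset.sum_congr rfl fun u _ => ?_
  rw [Finset.mul_sum]
  refine Finset.sum_congr rfl fun v _ => ?_
  rw [Finset.mul_sum]
  exact Finset.sum_congr rfl fun w _ => by ring

/-- the triangles over an edge -/
theorem moon (y : V → ℝ) (hy : ∀ v, 0 ≤ y v) (D : V → V → Prop) (hD : ∀ u v, D u v → D v u) :
    2 * Sc y D ≤ Mt y D + (∑ v, y v) * Ed y D := by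
  have hsym : ∀ u v, ind (D u v) = ind (D v u) := fun u v => by
    unfold ind
    simp only [show D u v ↔ D v u from ⟨hD u v, hD v u⟩]
  have h1 : I y (fun u v w => ind (D u v) * ind (D v w)) = Sc y D := by
    rw [← I_swap12 y (fun u v w => ind (D u v) * ind (D v w))]
    unfold Sc
    refine congrArg (I y) ?_
    funext u v w
    rw [hsym v u]
  have h2 : I y (fun u v _ => ind (D u v)) = (∑ v, y v) * Ed y D := by
    unfold I Ed
    rw [Finset.mul_sum]
    refine Finset.sum_congr rfl fun u _ => ?_
    rw [Finset.mul_sum]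
    refine Finset.sum_congr rfl fun v _ => ?_
    rw [Finset.sum_mul]
    exact Finset.sum_congr rfl fun w _ => by ring
  have h3 : I y (fun u v w => (ind (D u v) * ind (D u w) + ind (D u v) * ind (D v w)) -
      ind (D u v) * ind (D u w) * ind (D v w)) ≤ I y (fun u v _ => ind (D u v)) := by
    refine I_mono y hy fun u v w => ?_
    rcases ind_cases (D u v) with ⟨-, e1⟩ | ⟨-, e1⟩ <;> rcases ind_cases (D u w) with ⟨-, e2⟩ | ⟨-, e2⟩ <;>
      rcases ind_cases (D v w) with ⟨-, e3⟩ | ⟨-, e3⟩ <;> rw [e1, e2, e3] <;> norm_num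
  rw [I_sub, I_add, h1, h2] at h3
  have h4 : Sc y D + Sc y D - Mt y D ≤ (∑ v, y v) * Ed y D := h3
  linarith

/-- weighted Turan theorem (Motzkin and Straus) -/
theorem turan (s : ℕ) (hs : 1 ≤ s) : ∀ (y : V → ℝ), (∀ v, 0 ≤ y v) → ∀ (D : V → V → Prop),
    (∀ u v, D u v → D v u) → (∀ v, ¬ D v v) →
    (∀ Q : Finset V, (∀ u ∈ Q, 0 < y u) → (∀ u ∈ Q, ∀ v ∈ Q, u ≠ v → D u v) → Q.card ≤ s) →
    (s : ℝ) * Ed y D ≤ ((s : ℝ) - 1) * (∑ v, y v) ^ 2 := by
  induction s, hs using Nat.le_induction with
  | base =>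
    intro y hy D hD hirr hcl
    have h0 : Ed y D = 0 := by
      unfold Ed
      refine Finset.sum_eq_zero fun u _ => Finset.sum_eq_zero fun v _ => ?_
      by_cases huv : D u v
      · have hne : u ≠ v := fun h => hirr v (h ▸ huv)
        by_contra hne0
        have hu : 0 < y u := lt_of_le_of_ne (hy u) (fun h => hne0 (by rw [← h]; ring))
        have hv : 0 < y v := lt_of_le_of_ne (hy v) (fun h => hne0 (by rw [← h]; ring))
        have h1 := hcl {u, v} (by
          intro z hz
          rw [Finset.mem_insert, Finset.mem_singleton] at hz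
          rcases hz with rfl | rfl
          · exact hu
          · exact hv) (by
          intro a ha b hb hab
          rw [Finset.mem_insert, Finset.mem_singleton] at ha hb
          rcases ha with rfl | rfl <;> rcases hb with rfl | rfl
          · exact absurd rfl hab
          · exact huv
          · exact hD _ _ huv
          · exact absurd rfl hab)
        rw [Finset.card_pair hne] at h1
        omega
      · rw [ind_false huv, zero_mul]
    rw [h0]
    norm_num
  | succ s hs ih =>
    intro y hy D hD hirr hcl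
    have hM : (s : ℝ) * Mt y D ≤ ((s : ℝ) - 1) * Sc y D := by
      rw [Mt_eq, Sc_eq, Finset.mul_sum, Finset.mul_sum]
      refine Finset.sum_le_sum fun u _ => ?_
      rcases (hy u).eq_or_lt with h0 | h0
      · rw [← h0]
        simp
      have h1 := ih (fun v => ind (D u v) * y v) (fun v => mul_nonneg (ind_nonneg _) (hy v)) D hD
        hirr (fun Q hQ hQD => by
          have hDu : ∀ v ∈ Q, D u v := fun v hv => by
            rcases ind_cases (D u v) with ⟨h, -⟩ | ⟨-, h⟩
            · exact h
            · have h2 := hQ v hv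
              simp only [h, zero_mul, lt_irrefl] at h2
          have huQ : u ∉ Q := fun h => hirr u (hDu u h)
          have h3 := hcl (insert u Q) (by
            intro z hz
            rw [Finset.mem_insert] at hz
            rcases hz with rfl | hz
            · exact h0
            · have h2 := hQ z hz
              exact lt_of_le_of_ne (hy z) (fun h => by
                simp only [← h, mul_zero, lt_irrefl] at h2)) (by
            intro a ha b hb hab
            rw [Finset.mem_insert] at ha hb
            rcases ha with rfl | ha <;> rcases hb with rfl | hb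
            · exact absurd rfl hab
            · exact hDu b hb
            · exact hD _ _ (hDu a ha)
            · exact hQD a ha b hb hab)
          rw [Finset.card_insert_of_notMem huQ] at h3
          omega)
      have h4 : (∑ v, ind (D u v) * y v) = dg y D u := rfl
      rw [h4] at h1
      calc (s : ℝ) * (y u * Ed (fun v => ind (D u v) * y v) D) =
          y u * ((s : ℝ) * Ed (fun v => ind (D u v) * y v) D) := by ring
        _ ≤ y u * (((s : ℝ) - 1) * dg y D u ^ 2) := mul_le_mul_of_nonneg_left h1 (hy u)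
        _ = ((s : ℝ) - 1) * (y u * dg y D u ^ 2) := by ring
    have hmoon := moon y hy D hD
    -- Cauchy-Schwarz
    have hcs : Ed y D ^ 2 ≤ (∑ v, y v) * Sc y D := by
      rw [Ed_eq, Sc_eq]
      have h5 := Finset.sum_mul_sq_le_sq_mul_sq Finset.univ (fun u => Real.sqrt (y u))
        (fun u => Real.sqrt (y u) * dg y D u)
      have e1 : ∀ u, Real.sqrt (y u) * (Real.sqrt (y u) * dg y D u) = y u * dg y D u := fun u => by
        rw [← mul_assoc, Real.mul_self_sqrt (hy u)]
      have e2 : ∀ u, Real.sqrt (y u) ^ 2 = y u := fun u => Real.sq_sqrt (hy u)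
      have e3 : ∀ u, (Real.sqrt (y u) * dg y D u) ^ 2 = y u * dg y D u ^ 2 := fun u => by
        rw [mul_pow, e2]
      simp only [e1, e2, e3] at h5
      exact h5
    have hs0 : (0 : ℝ) < s := by exact_mod_cast hs
    have hY : 0 ≤ ∑ v, y v := Finset.sum_nonneg fun v _ => hy v
    have hE : 0 ≤ Ed y D := Finset.sum_nonneg fun u _ => Finset.sum_nonneg fun v _ =>
      mul_nonneg (ind_nonneg _) (mul_nonneg (hy u) (hy v))
    have h6 : ((s : ℝ) + 1) * Sc y D ≤ (s : ℝ) * ((∑ v, y v) * Ed y D) := by nlinarith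
    push_cast
    set Y := ∑ v, y v with hYdef
    set E := Ed y D
    set S := Sc y D
    -- (s+1) E^2 <= (s+1) Y S <= s Y^2 E
    have h7 : ((s : ℝ) + 1) * E ^ 2 ≤ (s : ℝ) * (Y ^ 2 * E) := by nlinarith
    rcases hE.eq_or_lt with h8 | h8
    · rw [← h8]
      have : (0 : ℝ) ≤ (s : ℝ) * Y ^ 2 := by positivity
      linarith
    · have h9 : ((s : ℝ) + 1) * E ≤ (s : ℝ) * Y ^ 2 := by
        by_contra h10
        push Not at h10
        have := mul_lt_mul_of_pos_right h10 h8
        nlinarith
      linarith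

/-! ## One component -/

/-- a symmetric ternary relation `T` and a symmetric irreflexive relation `D` containing all pairs
of `T`; `T` has no four vertices with three edges -/
structure Cmp (T : V → V → V → Prop) (D : V → V → Prop) : Prop where
  sw : ∀ u v w, T u v w → T v u w
  cy : ∀ u v w, T u v w → T v w u
  sy : ∀ u v, D u v → D v u
  ir : ∀ v, ¬ D v v
  sub : ∀ u v w, T u v w → D u v
  free : ∀ a b c d, T a b c → T a b d → T b c d → False

/-- ordered edges -/
noncomputable def Lt (x : V → ℝ) (T : V → V → V → Prop) : ℝ := I x (fun u v w => ind (T u v w))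

/-- codegree -/
noncomputable def cd (x : V → ℝ) (T : V → V → V → Prop) (u v : V) : ℝ :=
  ∑ w, ind (T u v w) * x w

/-- the indicator of `w` being adjacent to `u` or `v`, for adjacent `u`, `v` -/
noncomputable def gam (D : V → V → Prop) (u v w : V) : ℝ :=
  ind (D u v) * (ind (D u w) + ind (D v w) - ind (D u w) * ind (D v w))

noncomputable def gg (x : V → ℝ) (D : V → V → Prop) (u v : V) : ℝ := ∑ w, gam D u v w * x w

theorem gam_nonneg (D : V → V → Prop) (u v w : V) : 0 ≤ gam D u v w := by
  unfold gam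
  rcases ind_cases (D u v) with ⟨-, e1⟩ | ⟨-, e1⟩ <;> rcases ind_cases (D u w) with ⟨-, e2⟩ | ⟨-, e2⟩ <;>
    rcases ind_cases (D v w) with ⟨-, e3⟩ | ⟨-, e3⟩ <;> rw [e1, e2, e3] <;> norm_num

theorem I_gam (x : V → ℝ) (D : V → V → Prop) (hD : ∀ u v, D u v → D v u) :
    I x (gam D) = 2 * Sc x D - Mt x D := by
  have hsym : ∀ u v, ind (D u v) = ind (D v u) := fun u v => by
    unfold ind
    simp only [show D u v ↔ D v u from ⟨hD u v, hD v u⟩]
  have h1 : I x (fun u v w => ind (D u v) * ind (D v w)) = Sc x D := by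
    rw [← I_swap12 x (fun u v w => ind (D u v) * ind (D v w))]
    unfold Sc
    refine congrArg (I x) ?_
    funext u v w
    rw [hsym v u]
  have h2 : gam D = fun u v w => (ind (D u v) * ind (D u w) + ind (D u v) * ind (D v w)) -
      ind (D u v) * ind (D u w) * ind (D v w) := by
    funext u v w
    unfold gam
    ring
  rw [h2, I_sub, I_add, h1]
  unfold Sc Mt
  ring

variable {T : V → V → V → Prop} {D : V → V → Prop}

theorem Cmp.ptw (h : Cmp T D) {u v w : V} (hT : T u v w) (z : V) :
    ind (T u v z) + ind (T v w z) + ind (T w u z) ≤ gam D u v z := by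
  have hvw := h.cy _ _ _ hT
  have hwu := h.cy _ _ _ hvw
  have huv : D u v := h.sub _ _ _ hT
  have n1 : ¬ (T u v z ∧ T v w z) := fun hh => h.free u v w z hT hh.1 hh.2
  have n2 : ¬ (T v w z ∧ T w u z) := fun hh => h.free v w u z hvw hh.1 hh.2
  have n3 : ¬ (T w u z ∧ T u v z) := fun hh => h.free w u v z hwu hh.1 hh.2
  unfold gam
  rw [ind_true huv]
  rcases ind_cases (T u v z) with ⟨t1, e1⟩ | ⟨t1, e1⟩
  · have d1 : D v z := h.sub _ _ _ (h.cy _ _ _ t1)
    rw [e1, ind_false (fun hh => n1 ⟨t1, hh⟩), ind_false (fun hh => n3 ⟨hh, t1⟩), ind_true d1]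
    linarith
  · rcases ind_cases (T v w z) with ⟨t2, e2⟩ | ⟨t2, e2⟩
    · have d1 : D v z := h.sy _ _ (h.sub _ _ _ (h.cy _ _ _ (h.cy _ _ _ t2)))
      rw [e1, e2, ind_false (fun hh => n2 ⟨t2, hh⟩), ind_true d1]
      linarith
    · rcases ind_cases (T w u z) with ⟨t3, e3⟩ | ⟨t3, e3⟩
      · have d1 : D u z := h.sub _ _ _ (h.cy _ _ _ t3)
        rw [e1, e2, e3, ind_true d1]
        linarith
      · rw [e1, e2, e3]
        have := gam_nonneg D u v z
        unfold gam at this
        rw [ind_true huv] at this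
        linarith

/-- the three codegrees of an edge -/
theorem Cmp.sum3 (h : Cmp T D) (x : V → ℝ) (hx : ∀ v, 0 ≤ x v) {u v w : V} (hT : T u v w) :
    cd x T u v + cd x T v w + cd x T w u ≤ gg x D u v := by
  unfold cd gg
  rw [← Finset.sum_add_distrib, ← Finset.sum_add_distrib]
  refine Finset.sum_le_sum fun z _ => ?_
  rw [← add_mul, ← add_mul]
  exact mul_le_mul_of_nonneg_right (h.ptw hT z) (hx z)

theorem cd_nonneg (x : V → ℝ) (hx : ∀ v, 0 ≤ x v) (u v : V) : 0 ≤ cd x T u v :=
  Finset.sum_nonneg fun w _ => mul_nonneg (ind_nonneg _) (hx w)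

theorem gg_nonneg (x : V → ℝ) (hx : ∀ v, 0 ≤ x v) (u v : V) : 0 ≤ gg x D u v :=
  Finset.sum_nonneg fun w _ => mul_nonneg (gam_nonneg _ _ _ _) (hx w)

theorem Cmp.cd_le (h : Cmp T D) (x : V → ℝ) (hx : ∀ v, 0 ≤ x v) (u v : V) :
    cd x T u v ≤ gg x D u v := by
  by_cases hw : ∃ w, T u v w
  · obtain ⟨w, hw⟩ := hw
    have h1 := h.sum3 x hx hw
    have h2 : 0 ≤ cd x T v w := cd_nonneg x hx v w
    have h3 : 0 ≤ cd x T w u := cd_nonneg x hx w u
    linarith
  · push Not at hw
    have h1 : cd x T u v = 0 := by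
      unfold cd
      exact Finset.sum_eq_zero fun w _ => by rw [ind_false (hw w), zero_mul]
    rw [h1]
    exact gg_nonneg x hx u v

/-- the quotients of the codegrees of an edge -/
theorem Cmp.quot (h : Cmp T D) (x : V → ℝ) (hx : ∀ v, 0 ≤ x v) {u v w : V} (hT : T u v w) :
    cd x T u v / gg x D u v + cd x T v w / gg x D v w + cd x T w u / gg x D w u ≤ 1 := by
  have hvw := h.cy _ _ _ hT
  have hwu := h.cy _ _ _ hvw
  have s1 := h.sum3 x hx hT
  have s2 := h.sum3 x hx hvw
  have s3 := h.sum3 x hx hwu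
  have c1 : 0 ≤ cd x T u v := cd_nonneg x hx u v
  have c2 : 0 ≤ cd x T v w := cd_nonneg x hx v w
  have c3 : 0 ≤ cd x T w u := cd_nonneg x hx w u
  set m := cd x T u v + cd x T v w + cd x T w u with hm
  have hm0 : 0 ≤ m := by positivity
  rcases hm0.eq_or_lt with h0 | h0
  · have e1 : cd x T u v = 0 := by linarith
    have e2 : cd x T v w = 0 := by linarith
    have e3 : cd x T w u = 0 := by linarith
    rw [e1, e2, e3]
    norm_num
  · have q1 : cd x T u v / gg x D u v ≤ cd x T u v / m :=
      div_le_div_of_nonneg_left c1 h0 s1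
    have q2 : cd x T v w / gg x D v w ≤ cd x T v w / m :=
      div_le_div_of_nonneg_left c2 h0 (by linarith)
    have q3 : cd x T w u / gg x D w u ≤ cd x T w u / m :=
      div_le_div_of_nonneg_left c3 h0 (by linarith)
    have q4 : cd x T u v / m + cd x T v w / m + cd x T w u / m = 1 := by
      rw [← add_div, ← add_div, ← hm, div_self h0.ne']
    linarith

/-- the inequality from Cauchy and Schwarz -/
theorem Cmp.cs (h : Cmp T D) (x : V → ℝ) (hx : ∀ v, 0 ≤ x v) :
    3 * Lt x T ≤ 2 * Sc x D - Mt x D := by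
  rw [← I_gam x D h.sy]
  set q : V → V → ℝ := fun u v => cd x T u v / gg x D u v with hq
  have e1 : Lt x T = ∑ u, ∑ v, x u * x v * cd x T u v := by
    unfold Lt I cd
    refine Finset.sum_congr rfl fun u _ => Finset.sum_congr rfl fun v _ => ?_
    rw [Finset.mul_sum]
    exact Finset.sum_congr rfl fun w _ => by ring
  have e2 : I x (gam D) = ∑ u, ∑ v, x u * x v * gg x D u v := by
    unfold I gg
    refine Finset.sum_congr rfl fun u _ => Finset.sum_congr rfl fun v _ => ?_
    rw [Finset.mul_sum]
    exact Finset.sum_congr rfl fun w _ => by ring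
  have e3 : I x (fun u v w => ind (T u v w) * q u v) = ∑ u, ∑ v, x u * x v * (q u v * cd x T u v) := by
    unfold I cd
    refine Finset.sum_congr rfl fun u _ => Finset.sum_congr rfl fun v _ => ?_
    rw [Finset.mul_sum, Finset.mul_sum]
    exact Finset.sum_congr rfl fun w _ => by ring
  have k1 : ∀ u v, 2 / 3 * cd x T u v - gg x D u v / 9 ≤ q u v * cd x T u v := by
    intro u v
    have hc := cd_nonneg (T := T) x hx u v
    have hle := h.cd_le x hx u v
    rcases (gg_nonneg (D := D) x hx u v).eq_or_lt with h0 | h0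
    · have hc0 : cd x T u v = 0 := by linarith
      rw [hc0, ← h0]
      norm_num
    · have h1 : q u v * cd x T u v - (2 / 3 * cd x T u v - gg x D u v / 9) =
          gg x D u v * (cd x T u v / gg x D u v - 1 / 3) ^ 2 := by
        rw [hq]
        field_simp
        ring
      have h2 : 0 ≤ gg x D u v * (cd x T u v / gg x D u v - 1 / 3) ^ 2 := by positivity
      linarith
  have k2 : 2 / 3 * Lt x T - I x (gam D) / 9 ≤ I x (fun u v w => ind (T u v w) * q u v) := by
    rw [e1, e2, e3, Finset.mul_sum, Finset.sum_div, ← Finset.sum_sub_distrib]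
    refine Finset.sum_le_sum fun u _ => ?_
    rw [Finset.mul_sum, Finset.sum_div, ← Finset.sum_sub_distrib]
    refine Finset.sum_le_sum fun v _ => ?_
    have := mul_le_mul_of_nonneg_left (k1 u v) (mul_nonneg (hx u) (hx v))
    linarith
  have hTc : ∀ u v w, ind (T v w u) = ind (T u v w) := fun u v w => by
    unfold ind
    simp only [show T v w u ↔ T u v w from
      ⟨fun h1 => h.cy _ _ _ (h.cy _ _ _ h1), h.cy u v w⟩]
  have k3 : 3 * I x (fun u v w => ind (T u v w) * q u v) ≤ Lt x T := by
    have f1 : I x (fun u v w => ind (T u v w) * q v w) = I x (fun u v w => ind (T u v w) * q u v) := by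
      rw [← I_cyc x (fun u v w => ind (T u v w) * q u v)]
      refine congrArg (I x) ?_
      funext u v w
      rw [hTc u v w]
    have f2 : I x (fun u v w => ind (T u v w) * q w u) = I x (fun u v w => ind (T u v w) * q v w) := by
      rw [← I_cyc x (fun u v w => ind (T u v w) * q v w)]
      refine congrArg (I x) ?_
      funext u v w
      rw [hTc u v w]
    have f3 : I x (fun u v w => (ind (T u v w) * q u v + ind (T u v w) * q v w) +
        ind (T u v w) * q w u) ≤ Lt x T := by
      unfold Lt
      refine I_mono x hx fun u v w => ?_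
      rcases ind_cases (T u v w) with ⟨t, e⟩ | ⟨t, e⟩
      · have := h.quot x hx t
        rw [e]
        simp only [hq]
        linarith
      · rw [e]
        norm_num
    rw [I_add, I_add, f2, f1] at f3
    linarith
  linarith

/-- the inequality for components whose shadow has no clique of size `r + 1` -/
theorem Cmp.clq (h : Cmp T D) (x : V → ℝ) (hx : ∀ v, 0 ≤ x v) (r : ℕ) (hr : 2 ≤ r)
    (hcl : ∀ Q : Finset V, (∀ u ∈ Q, ∀ v ∈ Q, u ≠ v → D u v) → Q.card ≤ r) :
    3 * (1 + 1 / (r : ℝ)) * Lt x T ≤ 3 * Sc x D - 2 * Mt x D := by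
  obtain ⟨s, rfl⟩ : ∃ s, r = s + 1 := ⟨r - 1, by omega⟩
  have hs : 1 ≤ s := by omega
  have hs0 : (0 : ℝ) < s := by exact_mod_cast hs
  have hM : (s : ℝ) * Mt x D ≤ ((s : ℝ) - 1) * Sc x D := by
    rw [Mt_eq, Sc_eq, Finset.mul_sum, Finset.mul_sum]
    refine Finset.sum_le_sum fun u _ => ?_
    have h1 := turan s hs (fun v => ind (D u v) * x v)
      (fun v => mul_nonneg (ind_nonneg _) (hx v)) D h.sy h.ir (fun Q hQ hQD => by
        have hDu : ∀ v ∈ Q, D u v := fun v hv => by
          rcases ind_cases (D u v) with ⟨h, -⟩ | ⟨-, h⟩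
          · exact h
          · have h2 := hQ v hv
            simp only [h, zero_mul, lt_irrefl] at h2
        have huQ : u ∉ Q := fun hh => h.ir u (hDu u hh)
        have h3 := hcl (insert u Q) (by
          intro a ha b hb hab
          rw [Finset.mem_insert] at ha hb
          rcases ha with rfl | ha <;> rcases hb with rfl | hb
          · exact absurd rfl hab
          · exact hDu b hb
          · exact h.sy _ _ (hDu a ha)
          · exact hQD a ha b hb hab)
        rw [Finset.card_insert_of_notMem huQ] at h3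
        omega)
    have h4 : (∑ v, ind (D u v) * x v) = dg x D u := rfl
    rw [h4] at h1
    calc (s : ℝ) * (x u * Ed (fun v => ind (D u v) * x v) D) =
        x u * ((s : ℝ) * Ed (fun v => ind (D u v) * x v) D) := by ring
      _ ≤ x u * (((s : ℝ) - 1) * dg x D u ^ 2) := mul_le_mul_of_nonneg_left h1 (hx u)
      _ = ((s : ℝ) - 1) * (x u * dg x D u ^ 2) := by ring
  have hcs := h.cs x hx
  have hr0 : (0 : ℝ) < (s : ℝ) + 1 := by linarith
  push_cast
  have e : 3 * (1 + 1 / ((s : ℝ) + 1)) * Lt x T = (((s : ℝ) + 2) * (3 * Lt x T)) / ((s : ℝ) + 1) := by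
    field_simp
    ring
  rw [e, div_le_iff₀ hr0]
  have h5 : ((s : ℝ) + 2) * (3 * Lt x T) ≤ ((s : ℝ) + 2) * (2 * Sc x D - Mt x D) :=
    mul_le_mul_of_nonneg_left hcs (by linarith)
  nlinarith

/-- the inequality for orientable components -/
theorem Cmp.ori (h : Cmp T D) (x : V → ℝ) (hx : ∀ v, 0 ≤ x v) (o : V → V → Prop)
    (ho : ∀ u v, o u v → ¬ o v u) (hoD : ∀ u v, D u v → o u v ∨ o v u)
    (hT : ∀ u v w, T u v w → (o u v ∧ o v w ∧ o w u) ∨ (o v u ∧ o w v ∧ o u w)) :
    4 * Lt x T ≤ 3 * Sc x D - 2 * Mt x D := by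
  set P : V → V → Prop := fun u v => D u v ∧ o u v with hP
  have hPD : ∀ u v, ind (P u v) + ind (P v u) = ind (D u v) := by
    intro u v
    by_cases hD : D u v
    · rcases hoD u v hD with h1 | h1
      · rw [ind_true hD, ind_true (show P u v from ⟨hD, h1⟩),
          ind_false (show ¬ P v u from fun hh => ho _ _ h1 hh.2)]
        norm_num
      · rw [ind_true hD, ind_true (show P v u from ⟨h.sy _ _ hD, h1⟩),
          ind_false (show ¬ P u v from fun hh => ho _ _ h1 hh.2)]
        norm_num
    · rw [ind_false hD, ind_false (show ¬ P u v from fun hh => hD hh.1),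
        ind_false (show ¬ P v u from fun hh => hD (h.sy _ _ hh.1))]
      norm_num
  set F : V → V → V → ℝ := fun u v w => ind (P u v) * ind (P w u) * ind (D v w) with hF
  have k1 : 4 * I x F ≤ Sc x D := by
    have h1 : I x F ≤ I x (fun u v w => ind (P u v) * ind (P w u)) := by
      refine I_mono x hx fun u v w => ?_
      have h2 := mul_nonneg (ind_nonneg (P u v)) (ind_nonneg (P w u))
      have h3 := ind_le_one (D v w)
      calc ind (P u v) * ind (P w u) * ind (D v w) ≤ ind (P u v) * ind (P w u) * 1 :=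
            mul_le_mul_of_nonneg_left h3 h2
        _ = _ := mul_one _
    have h2 : I x (fun u v w => ind (P u v) * ind (P w u)) =
        ∑ u, x u * ((∑ v, ind (P u v) * x v) * (∑ w, ind (P w u) * x w)) := by
      unfold I
      refine Finset.sum_congr rfl fun u _ => ?_
      rw [Finset.sum_mul_sum, Finset.mul_sum]
      refine Finset.sum_congr rfl fun v _ => ?_
      rw [Finset.mul_sum]
      exact Finset.sum_congr rfl fun w _ => by ring
    have h3 : 4 * ∑ u, x u * ((∑ v, ind (P u v) * x v) * (∑ w, ind (P w u) * x w)) ≤ Sc x D := by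
      rw [Sc_eq, Finset.mul_sum]
      refine Finset.sum_le_sum fun u _ => ?_
      have h4 : dg x D u = (∑ v, ind (P u v) * x v) + (∑ w, ind (P w u) * x w) := by
        unfold dg
        rw [← Finset.sum_add_distrib]
        exact Finset.sum_congr rfl fun v _ => by rw [← add_mul, hPD]
      rw [h4]
      have h5 := hx u
      have h6 := sq_nonneg ((∑ v, ind (P u v) * x v) - (∑ w, ind (P w u) * x w))
      nlinarith
    linarith
  have k2 : Mt x D + 2 * Lt x T ≤ 6 * I x F := by
    have g1 : I x (fun u v w => F v w u) = I x F := I_cyc x F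
    have g2 : I x (fun u v w => F w u v) = I x F := by
      rw [← I_cyc x (fun u v w => F w u v)]
    have g3 : I x (fun u v w => F v u w) = I x F := I_swap12 x F
    have g4 : I x (fun u v w => F u w v) = I x F := I_swap23 x F
    have g5 : I x (fun u v w => F w v u) = I x F := by
      rw [← g3, ← I_cyc x (fun u v w => F v u w)]
    have g6 : I x (fun u v w => ind (D u v) * ind (D u w) * ind (D v w) + 2 * ind (T u v w)) ≤
        I x (fun u v w => ((((F u v w + F v w u) + F w u v) + F v u w) + F u w v) + F w v u) := by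
      refine I_mono x hx fun u v w => ?_
      have hT' : T u v w → D u v ∧ D u w ∧ D v w := fun t =>
        ⟨h.sub _ _ _ t, h.sy _ _ (h.sub _ _ _ (h.cy _ _ _ (h.cy _ _ _ t))),
          h.sub _ _ _ (h.cy _ _ _ t)⟩
      have hs : ∀ a b, ind (D a b) = ind (D b a) := fun a b => by
        unfold ind
        simp only [show D a b ↔ D b a from ⟨h.sy a b, h.sy b a⟩]
      by_cases hD : D u v ∧ D u w ∧ D v w
      · obtain ⟨d1, d2, d3⟩ := hD
        have p1 := hPD u v
        have p2 := hPD u w
        have p3 := hPD v w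
        rw [ind_true d1] at p1
        rw [ind_true d2] at p2
        rw [ind_true d3] at p3
        simp only [hF, hs v u, hs w u, hs w v, ind_true d1, ind_true d2, ind_true d3, mul_one]
        have q1 : ind (P v u) = 1 - ind (P u v) := by linarith
        have q2 : ind (P w u) = 1 - ind (P u w) := by linarith
        have q3 : ind (P w v) = 1 - ind (P v w) := by linarith
        rw [q1, q2, q3]
        have r1 : o u v → ind (P u v) = 1 := fun hh => ind_true ⟨d1, hh⟩
        have r2 : o v u → ind (P u v) = 0 := fun hh => ind_false fun h2 => ho _ _ hh h2.2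
        have r3 : o u w → ind (P u w) = 1 := fun hh => ind_true ⟨d2, hh⟩
        have r4 : o w u → ind (P u w) = 0 := fun hh => ind_false fun h2 => ho _ _ hh h2.2
        have r5 : o v w → ind (P v w) = 1 := fun hh => ind_true ⟨d3, hh⟩
        have r6 : o w v → ind (P v w) = 0 := fun hh => ind_false fun h2 => ho _ _ hh h2.2
        have ht : T u v w → (ind (P u v) = 1 ∧ ind (P v w) = 1 ∧ ind (P u w) = 0) ∨
            (ind (P u v) = 0 ∧ ind (P v w) = 0 ∧ ind (P u w) = 1) := fun t => by
          rcases hT u v w t with ⟨a1, a2, a3⟩ | ⟨a1, a2, a3⟩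
          · exact Or.inl ⟨r1 a1, r5 a2, r4 a3⟩
          · exact Or.inr ⟨r2 a1, r6 a2, r3 a3⟩
        rcases ind_cases (T u v w) with ⟨t, e⟩ | ⟨t, e⟩
        · rcases ht t with ⟨a1, a2, a3⟩ | ⟨a1, a2, a3⟩ <;> rw [e, a1, a2, a3] <;> norm_num
        · rw [e]
          rcases ind_cases (P u v) with ⟨-, e1⟩ | ⟨-, e1⟩ <;>
            rcases ind_cases (P u w) with ⟨-, e2⟩ | ⟨-, e2⟩ <;>
            rcases ind_cases (P v w) with ⟨-, e3⟩ | ⟨-, e3⟩ <;> rw [e1, e2, e3] <;> norm_num
      · have hnT : ¬ T u v w := fun t => hD (hT' t)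
        have h0 : ind (D u v) * ind (D u w) * ind (D v w) = 0 := by
          rcases ind_cases (D u v) with ⟨a1, e1⟩ | ⟨a1, e1⟩
          · rcases ind_cases (D u w) with ⟨a2, e2⟩ | ⟨a2, e2⟩
            · rcases ind_cases (D v w) with ⟨a3, e3⟩ | ⟨a3, e3⟩
              · exact absurd ⟨a1, a2, a3⟩ hD
              · rw [e3, mul_zero]
            · rw [e2, mul_zero, zero_mul]
          · rw [e1, zero_mul, zero_mul]
        rw [h0, ind_false hnT]
        have hFn : ∀ a b c, 0 ≤ F a b c := fun a b c =>
          mul_nonneg (mul_nonneg (ind_nonneg _) (ind_nonneg _)) (ind_nonneg _)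
        have := hFn u v w
        have := hFn v w u
        have := hFn w u v
        have := hFn v u w
        have := hFn u w v
        have := hFn w v u
        linarith
    rw [I_add, I_add, I_add, I_add, I_add, I_add, I_smul, g1, g2, g3, g4, g5] at g6
    unfold Mt Lt
    linarith
  linarith

/-! ## All components -/

/-- the space used by pairwise disjoint shadows -/
theorem comp_sum {ι : Type*} (x : V → ℝ) (hx : ∀ v, 0 ≤ x v) (Cs : Finset ι)
    (D : ι → V → V → Prop) (sy : ∀ c ∈ Cs, ∀ u v, D c u v → D c v u)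
    (ir : ∀ c ∈ Cs, ∀ v, ¬ D c v v)
    (dj : ∀ c ∈ Cs, ∀ c' ∈ Cs, ∀ u v, D c u v → D c' u v → c = c') :
    ∑ c ∈ Cs, (3 * Sc x (D c) - 2 * Mt x (D c)) ≤ (∑ v, x v) ^ 3 - ∑ v, x v ^ 3 := by
  set φ : ι → V → V → V → ℝ := fun c u v w => ((ind (D c u v) * ind (D c u w) +
    ind (D c v w) * ind (D c v u)) + ind (D c w u) * ind (D c w v)) -
      2 * (ind (D c u v) * ind (D c u w) * ind (D c v w)) with hφ
  have e1 : ∀ c, I x (φ c) = 3 * Sc x (D c) - 2 * Mt x (D c) := by
    intro c
    simp only [hφ]
    rw [I_sub, I_add, I_add, I_smul]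
    have f1 : I x (fun u v w => ind (D c v w) * ind (D c v u)) = Sc x (D c) :=
      I_cyc x (fun u v w => ind (D c u v) * ind (D c u w))
    have f2 : I x (fun u v w => ind (D c w u) * ind (D c w v)) = Sc x (D c) := by
      rw [← f1, ← I_cyc x (fun u v w => ind (D c v w) * ind (D c v u))]
    rw [f1, f2]
    unfold Sc Mt
    ring
  have e2 : ∑ c ∈ Cs, (3 * Sc x (D c) - 2 * Mt x (D c)) =
      I x (fun u v w => ∑ c ∈ Cs, φ c u v w) := by
    rw [I_sum]
    exact Finset.sum_congr rfl fun c _ => (e1 c).symm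
  rw [e2, ← I_one, ← I_diag, ← I_sub]
  refine I_mono x hx fun u v w => ?_
  -- two of the three pairs
  have key : ∀ c ∈ Cs, (φ c u v w = 0) ∨ (φ c u v w = 1 ∧ ¬ (u = v ∧ u = w) ∧
      ((D c u v ∧ D c u w) ∨ (D c u v ∧ D c v w) ∨ (D c u w ∧ D c v w))) := by
    intro c hc
    have s1 : ind (D c v u) = ind (D c u v) := by
      unfold ind
      simp only [show D c v u ↔ D c u v from ⟨sy c hc v u, sy c hc u v⟩]
    have s2 : ind (D c w u) = ind (D c u w) := by
      unfold ind
      simp only [show D c w u ↔ D c u w from ⟨sy c hc w u, sy c hc u w⟩]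
    have s3 : ind (D c w v) = ind (D c v w) := by
      unfold ind
      simp only [show D c w v ↔ D c v w from ⟨sy c hc w v, sy c hc v w⟩]
    have hne : ∀ a b, D c a b → a ≠ b := fun a b hab h => ir c hc b (h ▸ hab)
    simp only [hφ, s1, s2, s3]
    rcases ind_cases (D c u v) with ⟨a1, e1⟩ | ⟨a1, e1⟩
    · rcases ind_cases (D c u w) with ⟨a2, e2⟩ | ⟨a2, e2⟩
      · right
        refine ⟨?_, fun h => hne u v a1 h.1, Or.inl ⟨a1, a2⟩⟩
        rw [e1, e2]
        ring
      · rcases ind_cases (D c v w) with ⟨a3, e3⟩ | ⟨a3, e3⟩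
        · right
          refine ⟨?_, fun h => hne u v a1 h.1, Or.inr (Or.inl ⟨a1, a3⟩)⟩
          rw [e1, e2, e3]
          ring
        · left
          rw [e1, e2, e3]
          ring
    · rcases ind_cases (D c u w) with ⟨a2, e2⟩ | ⟨a2, e2⟩
      · rcases ind_cases (D c v w) with ⟨a3, e3⟩ | ⟨a3, e3⟩
        · right
          refine ⟨?_, fun h => hne u w a2 h.2, Or.inr (Or.inr ⟨a2, a3⟩)⟩
          rw [e1, e2, e3]
          ring
        · left
          rw [e1, e2, e3]
          ring
      · left
        rw [e1, e2]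
        ring
  by_cases hex : ∃ c ∈ Cs, φ c u v w ≠ 0
  · obtain ⟨c, hc, hc0⟩ := hex
    rcases key c hc with h0 | ⟨h1, hne, hpr⟩
    · exact absurd h0 hc0
    · rw [ind_false hne, sub_zero, Finset.sum_eq_single_of_mem c hc, h1]
      intro c' hc' hcc
      rcases key c' hc' with h0 | ⟨-, -, hpr'⟩
      · exact h0
      · exfalso
        apply hcc
        rcases hpr with ⟨a, b⟩ | ⟨a, b⟩ | ⟨a, b⟩ <;> rcases hpr' with ⟨a', b'⟩ | ⟨a', b'⟩ | ⟨a', b'⟩ <;>
          first
          | exact dj c' hc' c hc _ _ a' a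
          | exact dj c' hc' c hc _ _ a' b
          | exact dj c' hc' c hc _ _ b' a
          | exact dj c' hc' c hc _ _ b' b
  · push Not at hex
    rw [Finset.sum_eq_zero hex]
    have := ind_le_one (u = v ∧ u = w)
    linarith

end Pool.Agent.Helper20.K4m
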