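import Pool.Agent.Helper20.K4m.Main

/-!
# The iterated construction of Frankl and Furedi
-/

set_option autoImplicit false

open scoped Classical

namespace Pool.Agent.Helper20.K4m

/-- the 3-graph with 10 edges on 6 vertices -/
def H6 : Fin 6 → Fin 6 → Fin 6 → Bool := fun a b c =>
  decide (({a, b, c} : Finset (Fin 6)) ∈ ({{5, 0, 1}, {5, 1, 2}, {5, 2, 3}, {5, 3, 4}, {5, 4, 0},
    {0, 1, 3}, {1, 2, 4}, {2, 3, 0}, {3, 4, 1}, {4, 0, 2}} : Finset (Finset (Fin 6))))

theorem H6_ne : ∀ a b c : Fin 6, H6 a b c = true → a ≠ b ∧ a ≠ c ∧ b ≠ c := by decide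

theorem H6_sw : ∀ a b c : Fin 6, H6 a b c = H6 b a c := by decide

theorem H6_cy : ∀ a b c : Fin 6, H6 a b c = H6 b c a := by decide

theorem H6_free : ∀ a b c : Fin 6, H6 a b c = true → ∀ d, H6 a b d = true → H6 b c d = false := by
  decide

theorem H6_closed : ∀ z x y : Fin 6, H6 z x y = true → ∀ u, H6 z y u = true → ∀ w, H6 z u w = true →
    H6 z x u = false → H6 z y w = false → H6 z x w = false → H6 x y w = true := by
  decide

theorem H6_count : ∑ a : Fin 6, ∑ b : Fin 6, ∑ c : Fin 6, (if H6 a b c = true then 1 else 0) = 60 := by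
  decide

/-- a 3-graph on `V` with a colouring of the pairs in which edges are monochromatic -/
structure Good {V : Type} [Fintype V] (R : V → V → V → Prop) {C : Type} (χ : V → V → C) : Prop where
  ne : ∀ a b c, R a b c → a ≠ b ∧ a ≠ c ∧ b ≠ c
  sw : ∀ a b c, R a b c → R b a c
  cy : ∀ a b c, R a b c → R b c a
  fr : ∀ a b c d, R a b c → R a b d → R b c d → False
  cl5 : ∀ z x y u w, R z x y → R z y u → R z u w → ¬ R z x u → ¬ R z y w → ¬ R z x w → R x y w
  count : 7 * Lt (fun _ => 1) R = 2 * ((Fintype.card V : ℝ) ^ 3 - Fintype.card V)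
  sy : ∀ u v, χ u v = χ v u
  mo : ∀ a b c, R a b c → χ a b = χ a c
  cl : ∀ (c : C) (Q : Finset V), (∀ u ∈ Q, ∀ v ∈ Q, u ≠ v → χ u v = c) → Q.card ≤ 6

theorem good_one : Good (V := Fin 1) (fun _ _ _ => False) (fun _ _ => ()) where
  ne _ _ _ h := h.elim
  sw _ _ _ h := h.elim
  cy _ _ _ h := h.elim
  fr _ _ _ _ h := h.elim
  cl5 _ _ _ _ _ h := h.elim
  count := by
    have h : Lt (V := Fin 1) (fun _ => 1) (fun _ _ _ => False) = 0 := by
      unfold Lt I ind
      simp
    rw [h]
    simp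
  sy _ _ := rfl
  mo _ _ _ _ := rfl
  cl _ Q _ := (Finset.card_le_univ Q).trans (by simp)

/-- the construction from one level to the next -/
def nextR {V : Type} (R : V → V → V → Prop) (p q r : Fin 6 × V) : Prop :=
  H6 p.1 q.1 r.1 = true ∨ (p.1 = q.1 ∧ p.1 = r.1 ∧ R p.2 q.2 r.2)

noncomputable def nextC {V C : Type} (χ : V → V → C) (p q : Fin 6 × V) : Option (Fin 6 × C) :=
  if p.1 = q.1 then some (p.1, χ p.2 q.2) else none

theorem good_next {V : Type} [Fintype V] {R : V → V → V → Prop} {C : Type} {χ : V → V → C}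
    (h : Good R χ) : Good (nextR R) (nextC χ) where
  ne := by
    rintro a b c (h1 | ⟨h1, h2, h3⟩)
    · obtain ⟨n1, n2, n3⟩ := H6_ne _ _ _ h1
      exact ⟨fun e => n1 (by rw [e]), fun e => n2 (by rw [e]), fun e => n3 (by rw [e])⟩
    · obtain ⟨n1, n2, n3⟩ := h.ne _ _ _ h3
      exact ⟨fun e => n1 (by rw [e]), fun e => n2 (by rw [e]), fun e => n3 (by rw [e])⟩
  sw := by
    rintro a b c (h1 | ⟨h1, h2, h3⟩)
    · exact Or.inl (by rw [← H6_sw]; exact h1)
    · exact Or.inr ⟨h1.symm, h1.symm.trans h2, h.sw _ _ _ h3⟩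
  cy := by
    rintro a b c (h1 | ⟨h1, h2, h3⟩)
    · exact Or.inl (by rw [← H6_cy]; exact h1)
    · exact Or.inr ⟨h1.symm.trans h2, h1.symm, h.cy _ _ _ h3⟩
  fr := by
    rintro a b c d (h1 | ⟨h1, h2, h3⟩) (h4 | ⟨h4, h5, h6⟩) (h7 | ⟨h7, h8, h9⟩)
    · have := H6_free _ _ _ h1 _ h4
      rw [this] at h7
      exact absurd h7 (by decide)
    · exact (H6_ne _ _ _ h1).2.2 h7
    · exact (H6_ne _ _ _ h1).1 h4
    · exact (H6_ne _ _ _ h1).1 h4
    · exact (H6_ne _ _ _ h4).1 h1
    · exact (H6_ne _ _ _ h4).1 h1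
    · exact (H6_ne _ _ _ h7).1 (h1.symm.trans h2)
    · exact h.fr _ _ _ _ h3 h6 h9
  cl5 := by
    rintro z x y u w (h1 | ⟨h1, h2, h3⟩) h4 h5 h6 h7 h8
    · have n1 := H6_ne _ _ _ h1
      rcases h4 with h4 | ⟨h4, -, -⟩
      · have n2 := H6_ne _ _ _ h4
        rcases h5 with h5 | ⟨h5, -, -⟩
        · refine Or.inl (H6_closed _ _ _ h1 _ h4 _ h5 ?_ ?_ ?_)
          · exact Bool.eq_false_of_not_eq_true fun e => h6 (Or.inl e)
          · exact Bool.eq_false_of_not_eq_true fun e => h7 (Or.inl e)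
          · exact Bool.eq_false_of_not_eq_true fun e => h8 (Or.inl e)
        · exact absurd h5 n2.2.1
      · exact absurd h4 n1.2.1
    · rcases h4 with h4 | ⟨h4, h4', h4''⟩
      · exact absurd h2 (H6_ne _ _ _ h4).1
      · rcases h5 with h5 | ⟨h5, h5', h5''⟩
        · exact absurd h4' (H6_ne _ _ _ h5).1
        · refine Or.inr ⟨h1.symm.trans h2, h1.symm.trans h5', ?_⟩
          exact h.cl5 _ _ _ _ _ h3 h4'' h5'' (fun e => h6 (Or.inr ⟨h1, h4', e⟩))
            (fun e => h7 (Or.inr ⟨h2, h5', e⟩)) (fun e => h8 (Or.inr ⟨h1, h5', e⟩))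
  count := by
    have e1 : ∀ (a b c : Fin 6) (u v w : V), ind (nextR R (a, u) (b, v) (c, w)) =
        ind (H6 a b c = true) + ind (a = b ∧ a = c) * ind (R u v w) := by
      intro a b c u v w
      rcases ind_cases (H6 a b c = true) with ⟨h1, e⟩ | ⟨h1, e⟩
      · rw [e, ind_true (show nextR R (a, u) (b, v) (c, w) from Or.inl h1),
          ind_false (fun hh : a = b ∧ a = c => (H6_ne _ _ _ h1).1 hh.1)]
        ring
      · rcases ind_cases (a = b ∧ a = c) with ⟨h2, e2⟩ | ⟨h2, e2⟩
        · rcases ind_cases (R u v w) with ⟨h3, e3⟩ | ⟨h3, e3⟩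
          · rw [e, e2, e3, ind_true (show nextR R (a, u) (b, v) (c, w) from
              Or.inr ⟨h2.1, h2.2, h3⟩)]
            ring
          · rw [e, e2, e3, ind_false (show ¬ nextR R (a, u) (b, v) (c, w) from fun hh => by
              rcases hh with hh | hh
              · exact h1 hh
              · exact h3 hh.2.2)]
            ring
        · rw [e, e2, ind_false (show ¬ nextR R (a, u) (b, v) (c, w) from fun hh => by
            rcases hh with hh | hh
            · exact h1 hh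
            · exact h2 ⟨hh.1, hh.2.1⟩)]
          ring
    have e2 : Lt (fun _ : Fin 6 × V => (1 : ℝ)) (nextR R) =
        (∑ a : Fin 6, ∑ u : V, ∑ b : Fin 6, ∑ v : V, ∑ c : Fin 6, ∑ w : V,
          ind (H6 a b c = true)) +
        ∑ a : Fin 6, ∑ u : V, ∑ b : Fin 6, ∑ v : V, ∑ c : Fin 6, ∑ w : V,
          ind (a = b ∧ a = c) * ind (R u v w) := by
      unfold Lt I
      simp only [Fintype.sum_prod_type, e1, mul_one, Finset.sum_add_distrib]
    have e3 : (∑ a : Fin 6, ∑ u : V, ∑ b : Fin 6, ∑ v : V, ∑ c : Fin 6, ∑ w : V,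
          ind (H6 a b c = true)) = 60 * (Fintype.card V : ℝ) ^ 3 := by
      have h60 : ∑ a : Fin 6, ∑ b : Fin 6, ∑ c : Fin 6, ind (H6 a b c = true) = 60 := by
        have h61 : ((∑ a : Fin 6, ∑ b : Fin 6, ∑ c : Fin 6,
            (if H6 a b c = true then 1 else 0) : ℕ) : ℝ) = 60 := by
          rw [H6_count]
          norm_num
        rw [← h61]
        rw [Nat.cast_sum]
        refine Finset.sum_congr rfl fun a _ => ?_
        rw [Nat.cast_sum]
        refine Finset.sum_congr rfl fun b _ => ?_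
        rw [Nat.cast_sum]
        refine Finset.sum_congr rfl fun c _ => ?_
        rcases ind_cases (H6 a b c = true) with ⟨h1, e⟩ | ⟨h1, e⟩
        · rw [e, if_pos h1, Nat.cast_one]
        · rw [e, if_neg h1, Nat.cast_zero]
      simp only [Finset.sum_const, Finset.card_univ, nsmul_eq_mul, ← Finset.mul_sum]
      rw [h60]
      ring
    have e4 : (∑ a : Fin 6, ∑ u : V, ∑ b : Fin 6, ∑ v : V, ∑ c : Fin 6, ∑ w : V,
          ind (a = b ∧ a = c) * ind (R u v w)) = 6 * Lt (fun _ : V => (1 : ℝ)) R := by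
      have h1 : ∀ a : Fin 6, (∑ u : V, ∑ b : Fin 6, ∑ v : V, ∑ c : Fin 6, ∑ w : V,
          ind (a = b ∧ a = c) * ind (R u v w)) = Lt (fun _ : V => (1 : ℝ)) R := by
        intro a
        unfold Lt I
        refine Finset.sum_congr rfl fun u _ => ?_
        rw [Finset.sum_eq_single a]
        · refine Finset.sum_congr rfl fun v _ => ?_
          rw [Finset.sum_eq_single a]
          · refine Finset.sum_congr rfl fun w _ => ?_
            rw [ind_true ⟨rfl, rfl⟩]
            ring
          · intro c _ hc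
            refine Finset.sum_eq_zero fun w _ => ?_
            rw [ind_false (fun hh => hc hh.2.symm), zero_mul]
          · intro hh
            exact absurd (Finset.mem_univ _) hh
        · intro b _ hb
          refine Finset.sum_eq_zero fun v _ => Finset.sum_eq_zero fun c _ =>
            Finset.sum_eq_zero fun w _ => ?_
          rw [ind_false (fun hh => hb hh.1.symm), zero_mul]
        · intro hh
          exact absurd (Finset.mem_univ _) hh
      simp only [h1]
      rw [Finset.sum_const, Finset.card_univ, Fintype.card_fin, nsmul_eq_mul]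
      norm_num
    have e5 := h.count
    have e6 : (Fintype.card (Fin 6 × V) : ℝ) = 6 * (Fintype.card V : ℝ) := by
      rw [Fintype.card_prod, Fintype.card_fin]
      push_cast
      ring
    have e7 : Lt (fun _ : Fin 6 × V => (1 : ℝ)) (nextR R) = 60 * (Fintype.card V : ℝ) ^ 3 +
        6 * Lt (fun _ : V => (1 : ℝ)) R := by rw [e2, e3, e4]
    have e8 : 7 * Lt (fun _ : Fin 6 × V => (1 : ℝ)) (nextR R) =
        2 * ((Fintype.card (Fin 6 × V) : ℝ) ^ 3 - Fintype.card (Fin 6 × V)) := by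
      rw [e7, e6]
      linear_combination 6 * e5
    exact e8
  sy := by
    intro p q
    unfold nextC
    by_cases hpq : p.1 = q.1
    · rw [if_pos hpq, if_pos hpq.symm, h.sy, hpq]
    · rw [if_neg hpq, if_neg (fun hh => hpq hh.symm)]
  mo := by
    rintro a b c (h1 | ⟨h1, h2, h3⟩)
    · obtain ⟨n1, n2, n3⟩ := H6_ne _ _ _ h1
      unfold nextC
      rw [if_neg n1, if_neg n2]
    · unfold nextC
      rw [if_pos h1, if_pos h2, h.mo _ _ _ h3]
  cl := by
    intro c Q hQ
    cases c with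
    | none =>
      have hinj : Set.InjOn Prod.fst (Q : Set (Fin 6 × V)) := by
        intro p hp q hq hpq
        by_contra hne
        have h1 := hQ p hp q hq hne
        unfold nextC at h1
        rw [if_pos hpq] at h1
        exact absurd h1 (by simp)
      have h2 := Finset.card_le_card_of_injOn (t := Finset.univ) Prod.fst
        (fun _ _ => Finset.mem_univ _) hinj
      simpa using h2
    | some c =>
      have hfst : ∀ p ∈ Q, ∀ q ∈ Q, p ≠ q → p.1 = q.1 ∧ χ p.2 q.2 = c.2 := by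
        intro p hp q hq hne
        have h1 := hQ p hp q hq hne
        unfold nextC at h1
        by_cases hpq : p.1 = q.1
        · rw [if_pos hpq, Option.some_inj] at h1
          exact ⟨hpq, by rw [← h1]⟩
        · rw [if_neg hpq] at h1
          exact absurd h1 (by simp)
      have hinj : Set.InjOn Prod.snd (Q : Set (Fin 6 × V)) := by
        intro p hp q hq hpq
        by_contra hne
        exact hne (Prod.ext (hfst p hp q hq hne).1 hpq)
      have h3 : (Q.image Prod.snd).card = Q.card := Finset.card_image_of_injOn hinj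
      rw [← h3]
      refine h.cl c.2 _ ?_
      intro u hu v hv huv
      rw [Finset.mem_image] at hu hv
      obtain ⟨p, hp, rfl⟩ := hu
      obtain ⟨q, hq, rfl⟩ := hv
      exact (hfst p hp q hq (fun e => huv (by rw [e]))).2

theorem good_exists (k : ℕ) : ∃ (V : Type) (_ : Fintype V) (R : V → V → V → Prop) (C : Type)
    (χ : V → V → C), Fintype.card V = 6 ^ k ∧ Good R χ := by
  induction k with
  | zero => exact ⟨Fin 1, inferInstance, _, _, _, by simp, good_one⟩
  | succ k ih =>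
    obtain ⟨V, _, R, C, χ, hV, hG⟩ := ih
    refine ⟨Fin 6 × V, inferInstance, _, _, _, ?_, good_next hG⟩
    rw [Fintype.card_prod, Fintype.card_fin, hV, pow_succ, mul_comm]

/-- from ternary relations to sets of edges -/
theorem noK4m_of {V : Type} (E : Finset (Finset V)) (h3 : IsThree E)
    (hf : ∀ a b c d : V, ({a, b, c} : Finset V) ∈ E → ({a, b, d} : Finset V) ∈ E →
      ({b, c, d} : Finset V) ∈ E → False) : NoK4m E := by
  intro Q hQ
  by_contra hlt
  push Not at hlt
  obtain ⟨e1, e2, e3, he1, he2, he3, n12, n13, n23⟩ := Finset.two_lt_card_iff.1 hlt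
  rw [Finset.mem_filter] at he1 he2 he3
  have hex : ∀ e ∈ E, e ⊆ Q → ∃ t ∈ Q, e = Q.erase t := by
    intro e he heQ
    have h1 : (Q \ e).card = 1 := by
      rw [Finset.card_sdiff_of_subset heQ, hQ, h3 e he]
    obtain ⟨t, ht⟩ := Finset.card_eq_one.1 h1
    have htQ : t ∈ Q \ e := by rw [ht]; exact Finset.mem_singleton_self t
    rw [Finset.mem_sdiff] at htQ
    refine ⟨t, htQ.1, ?_⟩
    refine Finset.eq_of_subset_of_card_le (fun z hz => ?_) ?_
    · exact Finset.mem_erase.2 ⟨fun hh => htQ.2 (hh ▸ hz), heQ hz⟩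
    · rw [Finset.card_erase_of_mem htQ.1, hQ, h3 e he]
  obtain ⟨t1, ht1, rfl⟩ := hex e1 he1.1 he1.2
  obtain ⟨t2, ht2, rfl⟩ := hex e2 he2.1 he2.2
  obtain ⟨t3, ht3, rfl⟩ := hex e3 he3.1 he3.2
  have m12 : t1 ≠ t2 := fun hh => n12 (by rw [hh])
  have m13 : t1 ≠ t3 := fun hh => n13 (by rw [hh])
  have m23 : t2 ≠ t3 := fun hh => n23 (by rw [hh])
  have h4 : ((Q.erase t1).erase t2).erase t3 ≠ ∅ := by
    intro h5
    have h6 : (((Q.erase t1).erase t2).erase t3).card = 1 := by
      rw [Finset.card_erase_of_mem, Finset.card_erase_of_mem, Finset.card_erase_of_mem ht1, hQ]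
      · exact Finset.mem_erase.2 ⟨m12.symm, ht2⟩
      · exact Finset.mem_erase.2 ⟨m23.symm, Finset.mem_erase.2 ⟨m13.symm, ht3⟩⟩
    rw [h5] at h6
    simp at h6
  obtain ⟨s, hs⟩ := Finset.nonempty_iff_ne_empty.2 h4
  simp only [Finset.mem_erase] at hs
  obtain ⟨s3, s2, s1, hsQ⟩ := hs
  have hE : ∀ a b c d : V, a ∈ Q → b ∈ Q → c ∈ Q → a ≠ b → a ≠ c → b ≠ c → a ≠ d → b ≠ d → c ≠ d →
      d ∈ Q → ({a, b, c} : Finset V) = Q.erase d := by
    intro a b c d ha hb hc hab hac hbc had hbd hcd hd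
    refine Finset.eq_of_subset_of_card_le (fun z hz => ?_) ?_
    · simp only [Finset.mem_insert, Finset.mem_singleton] at hz
      rcases hz with rfl | rfl | rfl
      · exact Finset.mem_erase.2 ⟨had, ha⟩
      · exact Finset.mem_erase.2 ⟨hbd, hb⟩
      · exact Finset.mem_erase.2 ⟨hcd, hc⟩
    · rw [Finset.card_erase_of_mem hd, hQ, Finset.card_insert_of_notMem, Finset.card_pair hbc]
      simp only [Finset.mem_insert, Finset.mem_singleton, not_or]
      exact ⟨hab, hac⟩
  apply hf t1 s t2 t3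
  · rw [hE t1 s t2 t3 ht1 hsQ ht2 s1.symm m12 s2 m13 s3 m23 ht3]
    exact he3.1
  · rw [hE t1 s t3 t2 ht1 hsQ ht3 s1.symm m13 s3 m12 s2 m23.symm ht2]
    exact he2.1
  · rw [hE s t2 t3 t1 hsQ ht2 ht3 s2 s3 m23 s1 m12.symm m13.symm ht1]
    exact he1.1

/-- Sharpness. -/
theorem sharp (k : ℕ) : ∃ (V : Type) (_ : Fintype V) (E : Finset (Finset V)),
    Fintype.card V = 6 ^ k ∧ IsThree E ∧ NoK4m E ∧ Closed E ∧ (∀ e ∈ E, clq E e ≤ 6) ∧
      21 * E.card + 6 ^ k = (6 ^ k) ^ 3 := by
  obtain ⟨V, _, R, C, χ, hV, hG⟩ := good_exists k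
  refine ⟨V, inferInstance, Finset.univ.filter fun e : Finset V => ∃ a b c, e = {a, b, c} ∧ R a b c,
    hV, ?_⟩
  set E := Finset.univ.filter fun e : Finset V => ∃ a b c, e = {a, b, c} ∧ R a b c with hE
  have h3 : IsThree E := by
    intro e he
    rw [hE, Finset.mem_filter] at he
    obtain ⟨-, a, b, c, rfl, hR⟩ := he
    obtain ⟨n1, n2, n3⟩ := hG.ne _ _ _ hR
    rw [Finset.card_insert_of_notMem, Finset.card_pair n3]
    simp only [Finset.mem_insert, Finset.mem_singleton, not_or]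
    exact ⟨n1, n2⟩
  have hmem : ∀ a b c, ({a, b, c} : Finset V) ∈ E ↔ R a b c := by
    intro a b c
    constructor
    · intro h
      have hc := h3 _ h
      rw [hE, Finset.mem_filter] at h
      obtain ⟨-, p, q, r, hpq, hR⟩ := h
      rcases perm6 hc hpq with ⟨rfl, rfl, rfl⟩ | ⟨rfl, rfl, rfl⟩ | ⟨rfl, rfl, rfl⟩ |
        ⟨rfl, rfl, rfl⟩ | ⟨rfl, rfl, rfl⟩ | ⟨rfl, rfl, rfl⟩
      · exact hR
      · exact hG.sw _ _ _ (hG.cy _ _ _ (hG.cy _ _ _ hR))
      · exact hG.sw _ _ _ hR
      · exact hG.cy _ _ _ hR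
      · exact hG.cy _ _ _ (hG.cy _ _ _ hR)
      · exact hG.sw _ _ _ (hG.cy _ _ _ hR)
    · intro h
      rw [hE, Finset.mem_filter]
      exact ⟨Finset.mem_univ _, a, b, c, rfl, h⟩
  refine ⟨h3, noK4m_of E h3 (fun a b c d h1 h2 h4 => hG.fr a b c d ((hmem _ _ _).1 h1)
    ((hmem _ _ _).1 h2) ((hmem _ _ _).1 h4)), ?_, ?_, ?_⟩
  · intro z x y u w a1 a2 a3 a4 a5 a6
    rw [hmem] at a1 a2 a3 a4 a5 a6 ⊢
    exact hG.cl5 z x y u w a1 a2 a3 a4 a5 a6
  · -- cliques
    intro e he
    have hcol : ∀ f ∈ E, ∃ c : C, ∀ u ∈ f, ∀ v ∈ f, u ≠ v → χ u v = c := by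
      intro f hf
      rw [hE, Finset.mem_filter] at hf
      obtain ⟨-, p, q, r, rfl, hR⟩ := hf
      have c1 : χ p q = χ p r := hG.mo _ _ _ hR
      have c2 : χ q r = χ q p := hG.mo _ _ _ (hG.cy _ _ _ hR)
      have c3 : χ q p = χ p q := hG.sy q p
      have c4 : χ r p = χ p r := hG.sy r p
      have c5 : χ r q = χ q r := hG.sy r q
      refine ⟨χ p q, fun u hu v hv huv => ?_⟩
      simp only [Finset.mem_insert, Finset.mem_singleton] at hu hv
      rcases hu with rfl | rfl | rfl <;> rcases hv with rfl | rfl | rfl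
      · exact absurd rfl huv
      · rfl
      · exact c1.symm
      · exact c3
      · exact absurd rfl huv
      · exact c2.trans c3
      · exact c4.trans c1.symm
      · exact c5.trans (c2.trans c3)
      · exact absurd rfl huv
    obtain ⟨c, hc⟩ := hcol e he
    have htight : ∀ f, Tight E e f → ∀ u ∈ f, ∀ v ∈ f, u ≠ v → χ u v = c := by
      intro f hf
      induction hf with
      | refl => exact hc
      | tail _ hab ih =>
        rename_i a b _
        obtain ⟨ha, hb, hab2⟩ := hab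
        obtain ⟨c', hc'⟩ := hcol _ hb
        obtain ⟨y, z, hyz, hyz2⟩ := Finset.card_eq_two.1 hab2
        have hy : y ∈ a ∩ b := by rw [hyz2]; simp
        have hz : z ∈ a ∩ b := by rw [hyz2]; simp
        rw [Finset.mem_inter] at hy hz
        have h5 := ih y hy.1 z hz.1 hyz
        have h6 := hc' y hy.2 z hz.2 hyz
        intro u hu v hv huv
        rw [hc' u hu v hv huv, ← h6, h5]
    unfold clq
    refine Finset.sup_le fun Q hQ => ?_
    rw [Finset.mem_filter] at hQ
    refine hG.cl c Q fun u hu v hv huv => ?_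
    obtain ⟨-, f, -, hT, hu', hv'⟩ := hQ.2 u hu v hv huv
    exact htight f hT u hu' v hv' huv
  · have h5 := Lt_eq (fun _ : V => (1 : ℝ)) E (fun f hf => h3 f hf)
    have h6 : Lt (fun _ : V => (1 : ℝ)) (Tc E) = Lt (fun _ : V => (1 : ℝ)) R := by
      unfold Lt
      refine congrArg _ ?_
      funext u v w
      unfold ind Tc
      simp only [hmem]
    have h7 := hG.count
    rw [← h6, h5] at h7
    simp only [Finset.prod_const_one, Finset.sum_const, nsmul_eq_mul, mul_one] at h7
    rw [hV] at h7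
    have h8 : (21 : ℝ) * E.card + 6 ^ k = (6 ^ k) ^ 3 := by
      push_cast at h7
      linarith
    exact_mod_cast h8

end Pool.Agent.Helper20.K4m
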