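import Mathlib

/-!
# 3-graphs with 0 or 2 edges on every four vertices: orientable, or a shadow without K_7
-/

set_option autoImplicit false

open scoped Classical

namespace Pool.Agent.Helper20.K4m

/-- a 3-graph `T` without `K_4^-` and a set `M` containing its vertices such that every four vertices
of `M` that contain an edge contain two edges -/
structure ZT {V : Type} (T : V → V → V → Prop) (M : V → Prop) : Prop where
  ne : ∀ a b c, T a b c → a ≠ b ∧ a ≠ c ∧ b ≠ c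
  sw : ∀ a b c, T a b c → T b a c
  cy : ∀ a b c, T a b c → T b c a
  fr : ∀ a b c d, T a b c → T a b d → T b c d → False
  mem : ∀ a b c, T a b c → M a
  two : ∀ a b c w, T a b c → M w → w ≠ a → w ≠ b → w ≠ c → T a b w ∨ T a c w ∨ T b c w

variable {V : Type} {T : V → V → V → Prop} {M : V → Prop}

namespace ZT

theorem sy (h : ZT T M) {v x y : V} (hL : T v x y) : T v y x :=
  h.sw _ _ _ (h.cy _ _ _ (h.cy _ _ _ hL))

theorem tri (h : ZT T M) {v x y z : V} (h1 : T v x y) (h2 : T v y z) (h3 : T v x z) : False :=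
  h.fr x v y z (h.sw _ _ _ h1) (h.sw _ _ _ h3) h2

/-- three edges on four vertices -/
theorem fr2 (h : ZT T M) {v x y z : V} (h1 : T x y z) (h2 : T v x y) (h3 : T v x z) : False :=
  h.fr v x y z h2 h3 h1

theorem t1 (h : ZT T M) {v x y z : V} (hv : M v) (h1 : T x y z) (h2 : v ≠ x) (h3 : v ≠ y)
    (h4 : v ≠ z) : T v x y ∨ T v x z ∨ T v y z := by
  rcases h.two x y z v h1 hv h2 h3 h4 with h5 | h5 | h5
  · exact Or.inl (h.cy _ _ _ (h.cy _ _ _ h5))
  · exact Or.inr (Or.inl (h.cy _ _ _ (h.cy _ _ _ h5)))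
  · exact Or.inr (Or.inr (h.cy _ _ _ (h.cy _ _ _ h5)))

theorem t2 (h : ZT T M) {v x y z : V} (h1 : T v x y) (hz : M z) (n1 : z ≠ v) (n2 : z ≠ x)
    (n3 : z ≠ y) (m1 : ¬ T v x z) (m2 : ¬ T v y z) : T x y z := by
  rcases h.two v x y z h1 hz n1 n2 n3 with h5 | h5 | h5
  · exact absurd h5 m1
  · exact absurd h5 m2
  · exact h5

theorem memL (h : ZT T M) {v x y : V} (h1 : T v x y) : M x ∧ M y :=
  ⟨h.mem _ _ _ (h.cy _ _ _ h1), h.mem _ _ _ (h.cy _ _ _ (h.cy _ _ _ h1))⟩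

/-- there is no induced pair of disjoint edges in a link -/
theorem twoK (h : ZT T M) {v a b c d : V} (h1 : T v a b) (h2 : T v c d) (n1 : a ≠ c) (n2 : a ≠ d)
    (n3 : b ≠ c) (n4 : b ≠ d) (m1 : ¬ T v a c) (m2 : ¬ T v a d) (m3 : ¬ T v b c)
    (m4 : ¬ T v b d) : False := by
  obtain ⟨k1, k2, k3⟩ := h.ne _ _ _ h1
  obtain ⟨l1, l2, l3⟩ := h.ne _ _ _ h2
  have e1 : T a b c := h.t2 h1 (h.memL h2).1 l1.symm n1.symm n3.symm m1 m3
  have e2 : T a b d := h.t2 h1 (h.memL h2).2 l2.symm n2.symm n4.symm m2 m4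
  have e3 : T c d a := h.t2 h2 (h.memL h1).1 k1.symm n1 n2 (fun hh => m1 (h.sy hh))
    (fun hh => m2 (h.sy hh))
  exact h.fr b a c d (h.sw _ _ _ e1) (h.sw _ _ _ e2) (h.cy _ _ _ (h.cy _ _ _ e3))

/-- orientation: the case without 5-cycles in the link of `v` -/
theorem orient [Fintype V] (h : ZT T M) {v p q : V} (hpq : T v p q)
    (hC5 : ∀ a b c d e, T v a b → T v b c → T v c d → T v d e → T v e a → False) :
    ∃ o : V → V → Prop, (∀ x y, o x y → ¬ o y x) ∧
      ∀ x y z, T x y z → (o x y ∧ o y z ∧ o z x) ∨ (o y x ∧ o z y ∧ o x z) := by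
  set L : V → V → Prop := fun x y => T v x y with hL
  have Ls : ∀ x y, L x y → L y x := fun x y hh => h.sy hh
  have Li : ∀ x, ¬ L x x := fun x hh => (h.ne _ _ _ hh).2.2 rfl
  set hh : V → ℕ := fun x => (Finset.univ.filter (fun y => L x y)).card with hhd
  have hne : Nonempty V := ⟨v⟩
  obtain ⟨b0, hb0⟩ := Finite.exists_max hh
  set A : V → Prop := fun x => L b0 x with hA
  set B : V → Prop := fun x => ¬ L b0 x ∧ ∃ y, L x y with hB
  have hlt : ∀ x x' y, (∀ z, L x' z → L x z) → L x y → ¬ L x' y → hh x' < hh x := by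
    intro x x' y h1 h2 h3
    refine Finset.card_lt_card ⟨fun z hz => ?_, fun hsub => ?_⟩
    · rw [Finset.mem_filter] at hz ⊢
      exact ⟨hz.1, h1 z hz.2⟩
    · have h4 : y ∈ Finset.univ.filter (fun y => L x' y) :=
        hsub (Finset.mem_filter.2 ⟨Finset.mem_univ _, h2⟩)
      exact h3 (Finset.mem_filter.1 h4).2
  have hb0' : ∃ a0, L b0 a0 := by
    by_contra hcon
    push Not at hcon
    have h1 : hh b0 = 0 := by
      rw [hhd]
      simp only [Finset.card_eq_zero, Finset.filter_eq_empty_iff]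
      exact fun y _ => hcon y
    have h2 : 0 < hh p := by
      rw [hhd]
      exact Finset.card_pos.2 ⟨q, Finset.mem_filter.2 ⟨Finset.mem_univ _, hpq⟩⟩
    have := hb0 p
    omega
  have hAA : ∀ x y, A x → A y → ¬ L x y := fun x y hx hy hxy =>
    h.tri (v := v) hx hxy hy
  have hBB : ∀ x y, B x → B y → ¬ L x y := by
    intro b b' hb hb' hbb
    have nb : b0 ≠ b := fun e => hb'.1 (by rw [e]; exact hbb)
    have nb' : b0 ≠ b' := fun e => hb.1 (by rw [e]; exact Ls _ _ hbb)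
    have key : ∀ a, L b0 a → L a b ∨ L a b' := by
      intro a ha
      by_contra hcon
      push Not at hcon
      exact h.twoK (v := v) ha hbb nb nb' (fun e => hb.1 (by rw [← e]; exact ha))
        (fun e => hb'.1 (by rw [← e]; exact ha)) hb.1 hb'.1 hcon.1 hcon.2
    have k1 : ∃ a', L b0 a' ∧ ¬ L a' b := by
      by_contra hcon
      push Not at hcon
      have h1 := hlt b b0 b' (fun z hz => Ls _ _ (hcon z hz)) hbb hb'.1
      have := hb0 b
      omega
    have k2 : ∃ a, L b0 a ∧ ¬ L a b' := by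
      by_contra hcon
      push Not at hcon
      have h1 := hlt b' b0 b (fun z hz => Ls _ _ (hcon z hz)) (Ls _ _ hbb) hb.1
      have := hb0 b'
      omega
    obtain ⟨a', ha', na'⟩ := k1
    obtain ⟨a, ha, na⟩ := k2
    have e1 : L a' b' := (key a' ha').resolve_left na'
    have e2 : L a b := (key a ha).resolve_right na
    exact hC5 b0 a b b' a' ha e2 hbb (Ls _ _ e1) (Ls _ _ ha')
  have hAB : ∀ x y, L x y → (A x ∧ B y) ∨ (B x ∧ A y) := by
    intro x y hxy
    by_cases hx : A x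
    · by_cases hy : A y
      · exact absurd hxy (hAA x y hx hy)
      · exact Or.inl ⟨hx, hy, x, Ls _ _ hxy⟩
    · by_cases hy : A y
      · exact Or.inr ⟨⟨hx, y, hxy⟩, hy⟩
      · exact absurd hxy (hBB x y ⟨hx, y, hxy⟩ ⟨hy, x, Ls _ _ hxy⟩)
  -- nested neighbourhoods
  have hcomp : ∀ x x' y, ((A x ∧ A x') ∨ (B x ∧ B x')) → L x y → ¬ L x' y → hh x' < hh x := by
    intro x x' y hside hxy hxy'
    refine hlt x x' y (fun y' hy' => ?_) hxy hxy'
    by_contra hcon
    have hxx : ¬ L x x' := by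
      rcases hside with ⟨h1, h2⟩ | ⟨h1, h2⟩
      · exact hAA _ _ h1 h2
      · exact hBB _ _ h1 h2
    have hyy : ¬ L y y' := by
      rcases hside with ⟨h1, h2⟩ | ⟨h1, h2⟩
      · have e1 : B y := by
          rcases hAB _ _ hxy with ⟨-, h3⟩ | ⟨h3, -⟩
          · exact h3
          · exact absurd h1 h3.1
        have e2 : B y' := by
          rcases hAB _ _ hy' with ⟨-, h3⟩ | ⟨h3, -⟩
          · exact h3
          · exact absurd h2 h3.1
        exact hBB _ _ e1 e2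
      · have e1 : A y := by
          rcases hAB _ _ hxy with ⟨h3, -⟩ | ⟨-, h3⟩
          · exact absurd h3 h1.1
          · exact h3
        have e2 : A y' := by
          rcases hAB _ _ hy' with ⟨h3, -⟩ | ⟨-, h3⟩
          · exact absurd h3 h2.1
          · exact h3
        exact hAA _ _ e1 e2
    exact h.twoK (v := v) hxy hy' (fun e => hxy' (e ▸ hxy)) (fun e => by
      rw [← e] at hy'
      exact hxx (Ls _ _ hy')) (fun e => by
      rw [e] at hxy
      exact hxx hxy) (fun e => by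
      rw [← e] at hy'
      exact hxy' hy') hxx hcon (fun e => hxy' (Ls _ _ e)) hyy
  refine ⟨fun x y => ((¬ A x ∧ ¬ B x) ∧ A y) ∨ (B x ∧ (¬ A y ∧ ¬ B y)) ∨ (A x ∧ B y ∧ L x y) ∨
    (B x ∧ A y ∧ ¬ L x y) ∨ (A x ∧ A y ∧ hh x < hh y) ∨ (B x ∧ B y ∧ hh y < hh x), ?_, ?_⟩
  · intro x y hxy hyx
    have nAB : ∀ z, A z → B z → False := fun z h1 h2 => h2.1 h1
    have q1 : A x → ¬ B x := fun e e' => nAB x e e'
    have q2 : A y → ¬ B y := fun e e' => nAB y e e'
    have q3 : L x y → L y x := Ls x y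
    have q4 : L y x → L x y := Ls y x
    clear_value A B L
    rcases hxy with ⟨⟨a1, a2⟩, a3⟩ | ⟨a1, a2, a3⟩ | ⟨a1, a2, a3⟩ | ⟨a1, a2, a3⟩ | ⟨a1, a2, a3⟩ | ⟨a1, a2, a3⟩ <;>
      rcases hyx with ⟨⟨b1, b2⟩, b3⟩ | ⟨b1, b2, b3⟩ | ⟨b1, b2, b3⟩ | ⟨b1, b2, b3⟩ | ⟨b1, b2, b3⟩ | ⟨b1, b2, b3⟩ <;>
      first
      | omega
      | tauto
  · have main : ∀ x y z, T x y z → L x y → ¬ L x z → ¬ L y z → A x → B y →
        ∀ o : V → V → Prop, (∀ x y, ((¬ A x ∧ ¬ B x) ∧ A y) ∨ (B x ∧ (¬ A y ∧ ¬ B y)) ∨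
          (A x ∧ B y ∧ L x y) ∨ (B x ∧ A y ∧ ¬ L x y) ∨ (A x ∧ A y ∧ hh x < hh y) ∨
          (B x ∧ B y ∧ hh y < hh x) → o x y) → o x y ∧ o y z ∧ o z x := by
      intro x y z hT hxy hxz hyz hx hy o ho
      have hzx : ¬ L z x := fun e => hxz (Ls _ _ e)
      have hzy : ¬ L z y := fun e => hyz (Ls _ _ e)
      refine ⟨ho _ _ (Or.inr (Or.inr (Or.inl ⟨hx, hy, hxy⟩))), ?_, ?_⟩
      · by_cases hz : A z
        · exact ho _ _ (Or.inr (Or.inr (Or.inr (Or.inl ⟨hy, hz, hyz⟩))))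
        · by_cases hz' : B z
          · exact ho _ _ (Or.inr (Or.inr (Or.inr (Or.inr (Or.inr ⟨hy, hz',
              hcomp y z x (Or.inr ⟨hy, hz'⟩) (Ls _ _ hxy) hzx⟩)))))
          · exact ho _ _ (Or.inr (Or.inl ⟨hy, hz, hz'⟩))
      · by_cases hz : A z
        · exact ho _ _ (Or.inr (Or.inr (Or.inr (Or.inr (Or.inl ⟨hz, hx,
            hcomp x z y (Or.inl ⟨hx, hz⟩) hxy hzy⟩)))))
        · by_cases hz' : B z
          · exact ho _ _ (Or.inr (Or.inr (Or.inr (Or.inl ⟨hz', hx, hzx⟩))))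
          · exact ho _ _ (Or.inl ⟨⟨hz, hz'⟩, hx⟩)
    -- an edge of the link inside every edge
    have main2 : ∀ x y z, T x y z → L x y → ¬ L x z → ¬ L y z →
        ∀ o : V → V → Prop, (∀ x y, ((¬ A x ∧ ¬ B x) ∧ A y) ∨ (B x ∧ (¬ A y ∧ ¬ B y)) ∨
          (A x ∧ B y ∧ L x y) ∨ (B x ∧ A y ∧ ¬ L x y) ∨ (A x ∧ A y ∧ hh x < hh y) ∨
          (B x ∧ B y ∧ hh y < hh x) → o x y) →
        (o x y ∧ o y z ∧ o z x) ∨ (o y x ∧ o z y ∧ o x z) := by
      intro x y z hT hxy hxz hyz o ho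
      rcases hAB x y hxy with ⟨hx, hy⟩ | ⟨hx, hy⟩
      · exact Or.inl (main x y z hT hxy hxz hyz hx hy o ho)
      · obtain ⟨e1, e2, e3⟩ := main y x z (h.sw _ _ _ hT) (Ls _ _ hxy) hyz hxz hy hx o ho
        exact Or.inr ⟨e1, e3, e2⟩
    have hvL : ∀ x, ¬ L x v := fun x e => (h.ne _ _ _ e).2.1 rfl
    have hvL' : ∀ x, ¬ L v x := fun x e => (h.ne _ _ _ e).1 rfl
    intro x y z hT
    generalize ho : (fun x y => ((¬ A x ∧ ¬ B x) ∧ A y) ∨ (B x ∧ (¬ A y ∧ ¬ B y)) ∨
      (A x ∧ B y ∧ L x y) ∨ (B x ∧ A y ∧ ¬ L x y) ∨ (A x ∧ A y ∧ hh x < hh y) ∨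
      (B x ∧ B y ∧ hh y < hh x)) = o
    have ho' : ∀ x y, ((¬ A x ∧ ¬ B x) ∧ A y) ∨ (B x ∧ (¬ A y ∧ ¬ B y)) ∨
      (A x ∧ B y ∧ L x y) ∨ (B x ∧ A y ∧ ¬ L x y) ∨ (A x ∧ A y ∧ hh x < hh y) ∨
      (B x ∧ B y ∧ hh y < hh x) → o x y := fun x y hxy => by
      rw [← ho]
      exact hxy
    by_cases hz : z = v
    · subst hz
      exact main2 x y z hT (h.cy _ _ _ (h.cy _ _ _ hT)) (hvL x) (hvL y) o ho'
    by_cases hx : x = v
    · subst hx
      rcases main2 y z x (h.cy _ _ _ hT) hT (hvL y) (hvL z) o ho' with ⟨a1, a2, a3⟩ | ⟨a1, a2, a3⟩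
      · exact Or.inl ⟨a3, a1, a2⟩
      · exact Or.inr ⟨a3, a1, a2⟩
    by_cases hy : y = v
    · subst hy
      rcases main2 z x y (h.cy _ _ _ (h.cy _ _ _ hT)) (h.sy (h.sw _ _ _ hT)) (hvL z) (hvL x) o ho'
        with ⟨a1, a2, a3⟩ | ⟨a1, a2, a3⟩
      · exact Or.inl ⟨a2, a3, a1⟩
      · exact Or.inr ⟨a2, a3, a1⟩
    have hT2 := h.cy _ _ _ hT
    have hT3 := h.cy _ _ _ hT2
    rcases h.t1 (h.mem _ _ _ hpq) hT (Ne.symm hx) (Ne.symm hy) (Ne.symm hz) with h1 | h1 | h1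
    · exact main2 x y z hT h1 (fun e => h.fr2 hT h1 e) (fun e => h.fr2 (h.sw _ _ _ hT) (h.sy h1) e)
        o ho'
    · rcases main2 z x y hT3 (h.sy h1) (fun e => h.fr2 hT3 (h.sy h1) e)
        (fun e => h.fr2 (h.sw _ _ _ hT3) h1 e) o ho' with ⟨a1, a2, a3⟩ | ⟨a1, a2, a3⟩
      · exact Or.inl ⟨a2, a3, a1⟩
      · exact Or.inr ⟨a2, a3, a1⟩
    · rcases main2 y z x hT2 h1 (fun e => h.fr2 hT2 h1 e)
        (fun e => h.fr2 (h.sw _ _ _ hT2) (h.sy h1) e) o ho' with ⟨a1, a2, a3⟩ | ⟨a1, a2, a3⟩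
      · exact Or.inl ⟨a3, a1, a2⟩
      · exact Or.inr ⟨a3, a1, a2⟩

/-- the neighbours of a vertex on a 5-cycle of the link -/
theorem onC (h : ZT T M) {v : V} (c : Fin 5 → V) (hc : ∀ i, T v (c i) (c (i + 1))) (x y : V)
    (hxy : T v x y) : ∃ i : Fin 5, T v x (c (i + 1)) ∧ T v x (c (i + 4)) := by
  have n2 : ∀ i, ¬ T v (c i) (c (i + 2)) := fun i hh => by
    have e : i + 1 + 1 = i + 2 := by rw [add_assoc]; rfl
    exact h.tri (hc i) (e ▸ hc (i + 1)) hh
  have n3 : ∀ i, ¬ T v (c i) (c (i + 3)) := fun i hh => by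
    have e : i + 3 + 2 = i := by rw [add_assoc]; simp
    exact n2 (i + 3) (by rw [e]; exact h.sy hh)
  have np : ∀ i, ¬ (T v x (c i) ∧ T v x (c (i + 1))) := fun i hh =>
    h.tri (h.sy hh.1) hh.2 (hc i)
  by_contra hcon
  push Not at hcon
  have q3 : ∀ i, ¬ (T v x (c i) ∧ T v x (c (i + 3))) := fun i hh => by
    have e1 : i - 1 + 1 = i := by simp
    have e2 : i - 1 + 4 = i + 3 := by
      have : (4 : Fin 5) = 1 + 3 := rfl
      rw [this, ← add_assoc, e1]
    exact hcon (i - 1) (by rw [e1]; exact hh.1) (by rw [e2]; exact hh.2)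
  have q2 : ∀ i, ¬ (T v x (c i) ∧ T v x (c (i + 2))) := fun i hh => by
    have e : i + 2 + 3 = i := by rw [add_assoc]; simp
    exact q3 (i + 2) ⟨hh.2, by rw [e]; exact hh.1⟩
  by_cases hex : ∃ j, T v x (c j)
  · obtain ⟨j, hj⟩ := hex
    have e1 : j + 2 + 1 = j + 3 := by rw [add_assoc]; rfl
    refine h.twoK hj (e1 ▸ hc (j + 2)) (fun e => ?_) (fun e => ?_) (fun e => ?_) (fun e => ?_)
      (fun e => q2 j ⟨hj, e⟩) (fun e => q3 j ⟨hj, e⟩) (n2 j) (n3 j)
    · exact q3 j ⟨hj, by rw [e]; exact e1 ▸ hc (j + 2)⟩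
    · have e2 : j + 3 = j + 2 + 1 := e1.symm
      exact q2 j ⟨hj, by rw [e, ← e1]; exact h.sy (hc (j + 2))⟩
    · exact q2 j ⟨hj, by rw [← e]; exact hj⟩
    · exact q3 j ⟨hj, by rw [← e]; exact hj⟩
  · push Not at hex
    have hy : ∀ j, T v y (c j) ∨ T v y (c (j + 1)) := by
      intro j
      by_contra hcon2
      push Not at hcon2
      refine h.twoK hxy (hc j) (fun e => ?_) (fun e => ?_) (fun e => ?_) (fun e => ?_) (hex j)
        (hex (j + 1)) hcon2.1 hcon2.2
      · exact hex (j + 1) (by rw [e]; exact hc j)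
      · exact hex j (by rw [e]; exact h.sy (hc j))
      · exact hex j (by rw [← e]; exact hxy)
      · exact hex (j + 1) (by rw [← e]; exact hxy)
    have hyn : ∀ j, ¬ (T v y (c j) ∧ T v y (c (j + 1))) := fun i hh =>
      h.tri (h.sy hh.1) hh.2 (hc i)
    have f0 := hy 0
    have f1 := hy 1
    have f2 := hy 2
    have f3 := hy 3
    have f4 := hy 4
    have g0 := hyn 0
    have g1 := hyn 1
    have g2 := hyn 2
    have g3 := hyn 3
    have g4 := hyn 4
    have r1 : (0 : Fin 5) + 1 = 1 := rfl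
    have r2 : (1 : Fin 5) + 1 = 2 := rfl
    have r3 : (2 : Fin 5) + 1 = 3 := rfl
    have r4 : (3 : Fin 5) + 1 = 4 := rfl
    have r5 : (4 : Fin 5) + 1 = 0 := rfl
    rw [r1] at f0 g0
    rw [r2] at f1 g1
    rw [r3] at f2 g2
    rw [r4] at f3 g3
    rw [r5] at f4 g4
    tauto

/-- the twins of the vertices of a 5-cycle of the link -/
theorem twin (h : ZT T M) {v : V} (c : Fin 5 → V) (hc : ∀ i, T v (c i) (c (i + 1))) (x : V)
    (i : Fin 5) (h1 : T v x (c (i + 1))) (h4 : T v x (c (i + 4))) (y : V) :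
    T v x y ↔ T v (c i) y := by
  have n2 : ∀ i, ¬ T v (c i) (c (i + 2)) := fun i hh => by
    have e : i + 1 + 1 = i + 2 := by rw [add_assoc]; rfl
    exact h.tri (hc i) (e ▸ hc (i + 1)) hh
  have ei : i + 4 + 1 = i := by rw [add_assoc]; simp
  have hci4 : T v (c i) (c (i + 4)) := by
    have := hc (i + 4)
    rw [ei] at this
    exact h.sy this
  -- position of the neighbours
  have pos : ∀ z, (T v x z ∨ T v (c i) z) → T v z (c i) := by
    intro z hz
    have hz1 : ¬ T v z (c (i + 1)) := by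
      rcases hz with hz | hz
      · exact fun e => h.tri hz e h1
      · exact fun e => h.tri hz e (hc i)
    have hz4 : ¬ T v z (c (i + 4)) := by
      rcases hz with hz | hz
      · exact fun e => h.tri hz e h4
      · exact fun e => h.tri hz e hci4
    obtain ⟨w, hw⟩ : ∃ w, T v z w := by
      rcases hz with hz | hz
      · exact ⟨x, h.sy hz⟩
      · exact ⟨c i, h.sy hz⟩
    obtain ⟨j, hj1, hj4⟩ := h.onC c hc z w hw
    have hcase : j + 1 = i + 1 ∨ j + 1 = i + 4 ∨ j + 4 = i + 1 ∨ j + 4 = i + 4 ∨ j + 1 = i ∨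
        j + 4 = i := by
      have : ∀ i j : Fin 5, j + 1 = i + 1 ∨ j + 1 = i + 4 ∨ j + 4 = i + 1 ∨ j + 4 = i + 4 ∨
          j + 1 = i ∨ j + 4 = i := by decide
      exact this i j
    rcases hcase with e | e | e | e | e | e
    · exact absurd (e ▸ hj1) hz1
    · exact absurd (e ▸ hj1) hz4
    · exact absurd (e ▸ hj4) hz1
    · exact absurd (e ▸ hj4) hz4
    · exact e ▸ hj1
    · exact e ▸ hj4
  constructor
  · intro hxy
    exact h.sy (pos y (Or.inl hxy))
  · intro hcy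
    by_contra hxy
    have hyc : T v y (c i) := pos y (Or.inr hcy)
    obtain ⟨j, hj1, hj4⟩ := h.onC c hc y (c i) hyc
    have hy1 : ¬ T v y (c (i + 1)) := fun e => h.tri hcy e (hc i)
    have hy4 : ¬ T v y (c (i + 4)) := fun e => h.tri hcy e hci4
    have hxi : ¬ T v x (c i) := fun e => h.tri e (hc i) h1
    have hxny : x ≠ y := fun e => hxi (by rw [e]; exact hyc)
    have hcase : ∀ i j : Fin 5, j + 1 = i + 1 ∨ j + 1 = i + 4 ∨ j + 4 = i + 1 ∨ j + 4 = i + 4 ∨
        j + 1 = i + 2 ∨ j + 4 = i + 3 := by decide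
    rcases hcase i j with e | e | e | e | e | e
    · exact absurd (e ▸ hj1) hy1
    · exact absurd (e ▸ hj1) hy4
    · exact absurd (e ▸ hj4) hy1
    · exact absurd (e ▸ hj4) hy4
    · rw [e] at hj1
      -- y ~ c (i+2), x ~ c (i+4)
      have e24 : i + 2 + 2 = i + 4 := by rw [add_assoc]; rfl
      have k1 : ¬ T v x (c (i + 2)) := fun e' => by
        have e12 : i + 1 + 1 = i + 2 := by rw [add_assoc]; rfl
        exact h.tri (h.sy h1) e' (e12 ▸ hc (i + 1))
      have k2 : ¬ T v (c (i + 4)) (c (i + 2)) := fun e' => n2 (i + 2) (by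
        rw [e24]
        exact h.sy e')
      refine h.twoK h4 hj1 hxny (fun e' => ?_) (fun e' => ?_) (fun e' => ?_) hxy k1
        (fun e' => hy4 (h.sy e')) k2
      · exact hxy (by rw [e']; exact h.sy hj1)
      · exact hxy (by rw [← e']; exact h4)
      · exact k1 (by rw [← e']; exact h4)
    · rw [e] at hj4
      -- y ~ c (i+3), x ~ c (i+1)
      have e13 : i + 1 + 2 = i + 3 := by rw [add_assoc]; rfl
      have k1 : ¬ T v x (c (i + 3)) := fun e' => by
        have e34 : i + 3 + 1 = i + 4 := by rw [add_assoc]; rfl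
        exact h.tri (h.sy e') h4 (e34 ▸ hc (i + 3))
      have k2 : ¬ T v (c (i + 1)) (c (i + 3)) := fun e' => n2 (i + 1) (by
        rw [e13]
        exact e')
      refine h.twoK h1 hj4 hxny (fun e' => ?_) (fun e' => ?_) (fun e' => ?_) hxy k1
        (fun e' => hy1 (h.sy e')) k2
      · exact hxy (by rw [e']; exact h.sy hj4)
      · exact hxy (by rw [← e']; exact h1)
      · exact k1 (by rw [← e']; exact h1)

/-- the case of a 5-cycle in the link of `v`: there are no seven pairwise adjacent vertices in the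
shadow -/
theorem clique (h : ZT T M) {v p q : V} (hpq : T v p q) (c : Fin 5 → V)
    (hc : ∀ i, T v (c i) (c (i + 1))) (Q : Finset V)
    (hQ : ∀ x ∈ Q, ∀ y ∈ Q, x ≠ y → ∃ z, T x y z) : Q.card ≤ 6 := by
  have hv : M v := h.mem _ _ _ hpq
  set κ : V → Option (Fin 5) := fun x => if hx : ∃ y, T v x y then
    some (h.onC c hc x hx.choose hx.choose_spec).choose else none with hκ
  have hnone : ∀ x, κ x = none → ∀ y, ¬ T v x y := by
    intro x hx y hxy
    rw [hκ] at hx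
    simp only at hx
    rw [dif_pos ⟨y, hxy⟩] at hx
    exact absurd hx (by simp)
  have hsome : ∀ x i, κ x = some i → ∀ y, T v x y ↔ T v (c i) y := by
    intro x i hx y
    rw [hκ] at hx
    simp only at hx
    by_cases hex : ∃ y, T v x y
    · rw [dif_pos hex, Option.some_inj] at hx
      obtain ⟨e1, e4⟩ := (h.onC c hc x hex.choose hex.choose_spec).choose_spec
      rw [hx] at e1 e4
      exact h.twin c hc x i e1 e4 y
    · rw [dif_neg hex] at hx
      exact absurd hx (by simp)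
  have hvv : ∀ y, ¬ T v v y := fun y e => (h.ne _ _ _ e).1 rfl
  have hinj : ∀ x ∈ Q, ∀ y ∈ Q, κ x = κ y → x = y := by
    intro x hx y hy hxy
    by_contra hne
    obtain ⟨z, hz⟩ := hQ x hx y hy hne
    -- the links at v
    have hLxy : ¬ T v x y := by
      intro e
      cases hk : κ x with
      | none => exact hnone x hk y e
      | some i =>
        have e1 := (hsome x i hk y).1 e
        rw [hxy] at hk
        have e2 := (hsome y i hk y).2 e1
        exact (h.ne _ _ _ e2).2.2 rfl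
    have hLz : ∀ z, T v x z ↔ T v y z := by
      intro z
      cases hk : κ x with
      | none =>
        have hk' : κ y = none := by rw [← hxy]; exact hk
        exact ⟨fun e => absurd e (hnone x hk z), fun e => absurd e (hnone y hk' z)⟩
      | some i =>
        have hk' : κ y = some i := by rw [← hxy]; exact hk
        rw [hsome x i hk z, hsome y i hk' z]
    by_cases hxv : v = x
    · subst hxv
      exact hvv z ((hLz z).2 (by
        exact absurd hz (fun e => by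
          have e1 : T v y z := e
          exact hvv z ((hLz z).2 e1))))
    by_cases hyv : v = y
    · subst hyv
      exact hvv z ((hLz z).1 (h.sw _ _ _ hz))
    by_cases hzv : v = z
    · subst hzv
      exact hLxy (h.cy _ _ _ (h.cy _ _ _ hz))
    rcases h.t1 hv hz hxv hyv hzv with e | e | e
    · exact hLxy e
    · exact h.fr2 (h.cy _ _ _ (h.cy _ _ _ hz)) (h.sy e) (h.sy ((hLz z).1 e))
    · exact h.fr2 (h.cy _ _ _ (h.cy _ _ _ hz)) (h.sy ((hLz z).2 e)) (h.sy e)
  have h7 := Finset.card_le_card_of_injOn (s := Q) (t := (Finset.univ : Finset (Option (Fin 5)))) κ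
    (fun _ _ => Finset.mem_univ _) (fun x hx y hy hxy => hinj x hx y hy hxy)
  simpa using h7

/-- the dichotomy -/
theorem dich [Fintype V] (h : ZT T M) :
    (∃ o : V → V → Prop, (∀ x y, o x y → ¬ o y x) ∧
      ∀ x y z, T x y z → (o x y ∧ o y z ∧ o z x) ∨ (o y x ∧ o z y ∧ o x z)) ∨
    ∀ Q : Finset V, (∀ x ∈ Q, ∀ y ∈ Q, x ≠ y → ∃ z, T x y z) → Q.card ≤ 6 := by
  by_cases hT : ∃ v p q, T v p q
  · obtain ⟨v, p, q, hpq⟩ := hT
    by_cases hC : ∃ c : Fin 5 → V, ∀ i, T v (c i) (c (i + 1))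
    · obtain ⟨c, hc⟩ := hC
      exact Or.inr fun Q hQ => h.clique hpq c hc Q hQ
    · refine Or.inl (h.orient hpq fun a b c d e h1 h2 h3 h4 h5 => hC ⟨![a, b, c, d, e], ?_⟩)
      intro i
      fin_cases i
      · exact h1
      · exact h2
      · exact h3
      · exact h4
      · exact h5
  · push Not at hT
    exact Or.inl ⟨fun _ _ => False, fun _ _ h => h.elim, fun x y z hxyz => absurd hxyz (hT x y z)⟩

end ZT

end Pool.Agent.Helper20.K4m
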